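import Mathlib
import Pool.Graph.R_seed8.TH285.BD.Lower

/-!
Boolean dimension: the weighted count of cells (lower bound).
-/

set_option autoImplicit false

open Finset

namespace Pool.Agent.KS6_43.BD

open Pool.Agent.TH285.BD

/-- the crossing elements of a cell -/
def RS {n d M : ℕ} (r : Fin d → Fin n → ℕ) (o : Fin d → ℕ) (k : Fin d → Fin M) :
    Finset (Fin n) :=
  univ.filter (fun b => ∃ j, r j b + o j = 2 * (k j : ℕ))

/-- the weight of the cells -/
def WS {n d : ℕ} (M : ℕ) (r : Fin d → Fin n → ℕ) (o : Fin d → ℕ) : ℕ :=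
  ∑ k : Fin d → Fin M, 2 ^ (RS r o k).card

/-- crossing elements of one order -/
def R1 {n M : ℕ} (r : Fin n → ℕ) (o : ℕ) (k : Fin M) : Finset (Fin n) :=
  univ.filter (fun b => r b + o = 2 * (k : ℕ))

lemma RS_cons {n d M : ℕ} (r : Fin (d + 1) → Fin n → ℕ) (o0 : ℕ) (o : Fin d → ℕ)
    (k0 : Fin M) (k : Fin d → Fin M) :
    RS r (Fin.cons o0 o : Fin (d + 1) → ℕ) (Fin.cons k0 k : Fin (d + 1) → Fin M) =
      RS (fun j => r j.succ) o k ∪ R1 (r 0) o0 k0 := by
  ext b
  simp only [RS, R1, mem_filter, mem_univ, true_and, mem_union, Fin.exists_fin_succ, Fin.cons_zero,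
    Fin.cons_succ]
  exact or_comm

lemma R1_card_le {n M : ℕ} (r : Fin n → ℕ) (hr : Function.Injective r) (o : ℕ) (k : Fin M) :
    (R1 r o k).card ≤ 1 := by
  refine Finset.card_le_one.2 fun a ha b hb => hr ?_
  simp only [R1, mem_filter, mem_univ, true_and] at ha hb
  omega

lemma two_pow_le {x : ℕ} (hx : x ≤ 1) : 2 ^ x ≤ 1 + x := by
  interval_cases x <;> norm_num

/-- the two offsets together -/
lemma step_two {n M : ℕ} (r : Fin n → ℕ) (hr : Function.Injective r) (R : Finset (Fin n)) :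
    ∑ o ∈ range 2, ∑ k : Fin M, 2 ^ (R ∪ R1 r o k).card ≤ 2 ^ R.card * (2 * M + (n - R.card)) := by
  have h1 : ∀ o ∈ range 2, ∀ k ∈ (univ : Finset (Fin M)), 2 ^ (R ∪ R1 r o k).card ≤
      2 ^ R.card * (1 + (R1 r o k \ R).card) := by
    intro o _ k _
    rw [show (R ∪ R1 r o k).card = R.card + (R1 r o k \ R).card by
      rw [← Finset.card_union_of_disjoint (Finset.disjoint_sdiff)]
      simp]
    rw [pow_add]
    exact Nat.mul_le_mul_left _ (two_pow_le ((Finset.card_le_card Finset.sdiff_subset).trans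
      (R1_card_le r hr o k)))
  refine (Finset.sum_le_sum fun o ho => Finset.sum_le_sum (h1 o ho)).trans ?_
  simp_rw [← Finset.mul_sum, Finset.sum_add_distrib]
  refine Nat.mul_le_mul_left _ (Nat.add_le_add ?_ ?_)
  · simp
  · have h2 : ∑ o ∈ range 2, ∑ k : Fin M, (R1 r o k \ R).card ≤
        ∑ b ∈ Rᶜ, 1 := by
      have h3 : ∀ (o : ℕ) (k : Fin M), (R1 r o k \ R).card =
          ∑ b ∈ Rᶜ, if r b + o = 2 * (k : ℕ) then 1 else 0 := by
        intro o k
        rw [← Finset.card_filter]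
        congr 1
        ext b
        simp only [R1, mem_sdiff, mem_filter, mem_univ, true_and, mem_compl]
        tauto
      simp_rw [h3]
      rw [Finset.sum_congr rfl (fun o _ => Finset.sum_comm), Finset.sum_comm]
      refine Finset.sum_le_sum fun b _ => ?_
      rw [← Finset.sum_product']
      rw [← Finset.card_filter]
      refine Finset.card_le_one.2 ?_
      rintro ⟨o, k⟩ h ⟨o', k'⟩ h'
      simp only [mem_filter, mem_product, mem_range, mem_univ, and_true] at h h'
      have e1 : o = o' := by omega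
      have e2 : k = k' := Fin.ext (by omega)
      rw [e1, e2]
    refine h2.trans ?_
    rw [Finset.sum_const, smul_eq_mul, mul_one, Finset.card_compl, Fintype.card_fin]

lemma tangent (t x : ℕ) : t * 2 ^ x ≤ x * 2 ^ x + 2 ^ t := by
  rcases le_or_gt t x with h | h
  · exact (Nat.mul_le_mul_right _ h).trans (Nat.le_add_right _ _)
  · obtain ⟨m, rfl⟩ := Nat.exists_eq_add_of_lt h
    have h1 : m + 1 ≤ 2 ^ (m + 1) := Nat.lt_two_pow_self.le
    calc (x + m + 1) * 2 ^ x = x * 2 ^ x + (m + 1) * 2 ^ x := by ring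
      _ ≤ x * 2 ^ x + 2 ^ (m + 1) * 2 ^ x := Nat.add_le_add_left (Nat.mul_le_mul_right _ h1) _
      _ = x * 2 ^ x + 2 ^ (x + m + 1) := by rw [← pow_add]; congr 2; ring

lemma WS_cons {n d M : ℕ} (r : Fin (d + 1) → Fin n → ℕ) (o0 : ℕ) (o : Fin d → ℕ) :
    WS M r (Fin.cons o0 o : Fin (d + 1) → ℕ) =
      ∑ k : Fin d → Fin M, ∑ k0 : Fin M, 2 ^ (RS (fun j => r j.succ) o k ∪ R1 (r 0) o0 k0).card := by
  unfold WS
  rw [← (Fin.consEquiv (fun _ : Fin (d + 1) => Fin M)).sum_comp, Fintype.sum_prod_type,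
    Finset.sum_comm]
  refine Finset.sum_congr rfl fun k _ => Finset.sum_congr rfl fun k0 _ => ?_
  rw [← RS_cons]
  rfl

/-- one more order -/
lemma step_exists {n d M : ℕ} (r : Fin (d + 1) → Fin n → ℕ) (hr : ∀ j, Function.Injective (r j))
    (o : Fin d → ℕ) :
    ∃ o0 < 2, 2 * WS M r (Fin.cons o0 o : Fin (d + 1) → ℕ) +
      ∑ k : Fin d → Fin M, (RS (fun j => r j.succ) o k).card * 2 ^ (RS (fun j => r j.succ) o k).card ≤
      (2 * M + n) * WS M (fun j => r j.succ) o := by
  have h1 : ∑ o0 ∈ range 2, WS M r (Fin.cons o0 o : Fin (d + 1) → ℕ) +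
      ∑ k : Fin d → Fin M, (RS (fun j => r j.succ) o k).card * 2 ^ (RS (fun j => r j.succ) o k).card ≤
      (2 * M + n) * WS M (fun j => r j.succ) o := by
    simp_rw [WS_cons]
    rw [Finset.sum_comm, ← Finset.sum_add_distrib, WS, Finset.mul_sum]
    refine Finset.sum_le_sum fun k _ => ?_
    have h2 := step_two (M := M) (r 0) (hr 0) (RS (fun j => r j.succ) o k)
    have h3 : (RS (fun j => r j.succ) o k).card ≤ n := by
      simpa using Finset.card_le_univ (RS (fun j => r j.succ) o k)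
    set x := (RS (fun j => r j.succ) o k).card
    calc _ ≤ 2 ^ x * (2 * M + (n - x)) + x * 2 ^ x := Nat.add_le_add_right h2 _
      _ = 2 ^ x * (2 * M + (n - x) + x) := by ring
      _ = (2 * M + n) * 2 ^ x := by rw [mul_comm]; congr 1; omega
  rw [Finset.sum_range_succ, Finset.sum_range_one] at h1
  rcases le_total (WS M r (Fin.cons 0 o : Fin (d + 1) → ℕ)) (WS M r (Fin.cons 1 o : Fin (d + 1) → ℕ))
    with h | h
  · exact ⟨0, by norm_num, by omega⟩
  · exact ⟨1, by norm_num, by omega⟩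

lemma tangent_sum {n d M : ℕ} (r : Fin d → Fin n → ℕ) (o : Fin d → ℕ) (t : ℕ) :
    t * WS M r o ≤ ∑ k : Fin d → Fin M, (RS r o k).card * 2 ^ (RS r o k).card + 2 ^ t * M ^ d := by
  unfold WS
  rw [Finset.mul_sum]
  have h : 2 ^ t * M ^ d = ∑ _k : Fin d → Fin M, 2 ^ t := by
    simp [mul_comm]
  rw [h, ← Finset.sum_add_distrib]
  exact Finset.sum_le_sum fun k _ => tangent t _

lemma WS_zero {n M : ℕ} (r : Fin 0 → Fin n → ℕ) (o : Fin 0 → ℕ) : WS M r o = 1 := by
  unfold WS
  rw [Fintype.sum_unique]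
  have : RS r o (default : Fin 0 → Fin M) = ∅ := by
    ext b
    simp [RS]
  rw [this]
  simp

end Pool.Agent.KS6_43.BD
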