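import Mathlib
import Pool.Agent.KS6_43.BD.Low

/-!
Boolean dimension: the recursion for the weights.
-/

set_option autoImplicit false

open Finset

namespace Pool.Agent.KS6_43.BD

open Pool.Agent.TH285.BD

lemma caseB_bound (n M i : ℕ) (hn : 3 ≤ n) (hM : 2 * M ≤ n + 3) :
    (2 : ℝ) ^ (i / 2) * (M : ℝ) ^ i ≤ ((n : ℝ) + 3 / 2) ^ i * Real.exp (-(i : ℝ) / 32) := by
  have hnR : (3 : ℝ) ≤ n := by exact_mod_cast hn
  have hMR : 2 * (M : ℝ) ≤ n + 3 := by exact_mod_cast hM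
  have hM0 : (0 : ℝ) ≤ M := Nat.cast_nonneg _
  have h1 : 2 * (M : ℝ) ^ 2 ≤ ((n : ℝ) + 3 / 2) ^ 2 * Real.exp (-(1 / 16)) := by
    have h2 : (15 / 16 : ℝ) ≤ Real.exp (-(1 / 16)) := by
      have := Real.add_one_le_exp (-(1 / 16) : ℝ)
      linarith
    have h3 : 2 * (M : ℝ) ^ 2 ≤ ((n : ℝ) + 3 / 2) ^ 2 * (15 / 16) := by nlinarith
    exact h3.trans (mul_le_mul_of_nonneg_left h2 (by positivity))
  have h4 : ((2 : ℝ) ^ (i / 2) * (M : ℝ) ^ i) ^ 2 ≤
      (((n : ℝ) + 3 / 2) ^ i * Real.exp (-(i : ℝ) / 32)) ^ 2 := by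
    calc ((2 : ℝ) ^ (i / 2) * (M : ℝ) ^ i) ^ 2 = (2 : ℝ) ^ (i / 2 * 2) * ((M : ℝ) ^ 2) ^ i := by
          rw [mul_pow, ← pow_mul, ← pow_mul, ← pow_mul, mul_comm i 2]
      _ ≤ (2 : ℝ) ^ i * ((M : ℝ) ^ 2) ^ i := by
          refine mul_le_mul_of_nonneg_right ?_ (by positivity)
          exact pow_le_pow_right₀ (by norm_num) (Nat.div_mul_le_self i 2)
      _ = (2 * (M : ℝ) ^ 2) ^ i := by rw [mul_pow]
      _ ≤ (((n : ℝ) + 3 / 2) ^ 2 * Real.exp (-(1 / 16))) ^ i :=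
          pow_le_pow_left₀ (by positivity) h1 i
      _ = (((n : ℝ) + 3 / 2) ^ i * Real.exp (-(i : ℝ) / 32)) ^ 2 := by
          rw [mul_pow, mul_pow, ← pow_mul, ← pow_mul, mul_comm 2 i, ← Real.exp_nat_mul,
            ← Real.exp_nat_mul]
          congr 2
          push_cast
          ring
  exact le_of_sq_le_sq h4 (by positivity)
where
  le_of_sq_le_sq {a b : ℝ} (h : a ^ 2 ≤ b ^ 2) (hb : 0 ≤ b) : a ≤ b := by
    exact le_of_pow_le_pow_left₀ (by norm_num) hb h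

/-- the recursion -/
lemma step_real (n M i : ℕ) (hn : 3 ≤ n) (hM : 2 * M ≤ n + 3) (hi : 2 ≤ i) (hin : i ≤ n)
    (W W' A : ℕ) (h1 : 2 * W' + A ≤ (2 * M + n) * W)
    (h2 : (i / 2) * W ≤ A + 2 ^ (i / 2) * M ^ i)
    (h3 : (W : ℝ) ≤ 3 * ((n : ℝ) + 3 / 2) ^ i * Real.exp (-(i : ℝ) ^ 2 / (32 * (n + 3 / 2)))) :
    (W' : ℝ) ≤ 3 * ((n : ℝ) + 3 / 2) ^ (i + 1) *
      Real.exp (-((i : ℝ) + 1) ^ 2 / (32 * (n + 3 / 2))) := by
  set t := i / 2 with ht
  set N : ℝ := (n : ℝ) + 3 / 2 with hN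
  have hN0 : 0 < N := by positivity
  have hnR : (3 : ℝ) ≤ n := by exact_mod_cast hn
  have ht1 : 1 ≤ t := by omega
  have h1R : 2 * (W' : ℝ) + A ≤ 2 * N * W := by
    have h1' : 2 * (W' : ℝ) + A ≤ (2 * M + n) * W := by exact_mod_cast h1
    have hMR : 2 * (M : ℝ) ≤ n + 3 := by exact_mod_cast hM
    have hW0 : (0 : ℝ) ≤ W := Nat.cast_nonneg _
    have h4 : (2 * (M : ℝ) + n) * W ≤ 2 * N * W := by
      refine mul_le_mul_of_nonneg_right ?_ hW0
      rw [hN]; linarith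
    linarith
  have h2R : (t : ℝ) * W ≤ A + 2 ^ t * (M : ℝ) ^ i := by exact_mod_cast h2
  have hW0 : (0 : ℝ) ≤ W := Nat.cast_nonneg _
  have hA0 : (0 : ℝ) ≤ A := Nat.cast_nonneg _
  rcases le_or_gt (2 * (2 ^ t * (M : ℝ) ^ i)) (W : ℝ) with hA | hB
  · -- case A
    have ht1R : (1 : ℝ) ≤ t := by exact_mod_cast ht1
    have h4 : (t : ℝ) / 2 * W ≤ A := by nlinarith
    have h5 : (W' : ℝ) ≤ N * (1 - t / (4 * N)) * W := by
      have : N * (1 - t / (4 * N)) = N - t / 4 := by field_simp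
      rw [this]
      nlinarith
    have h6 : 1 - (t : ℝ) / (4 * N) ≤ Real.exp (-(t / (4 * N))) := by
      have := Real.add_one_le_exp (-((t : ℝ) / (4 * N)))
      linarith
    have h7 : (8 * t : ℝ) ≥ 2 * i + 1 := by
      have : 2 * i + 1 ≤ 8 * t := by omega
      exact_mod_cast this
    calc (W' : ℝ) ≤ N * (1 - t / (4 * N)) * W := h5
      _ ≤ N * Real.exp (-(t / (4 * N))) *
          (3 * N ^ i * Real.exp (-(i : ℝ) ^ 2 / (32 * N))) := by
          refine mul_le_mul (mul_le_mul_of_nonneg_left h6 hN0.le) h3 hW0 (by positivity)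
      _ = 3 * N ^ (i + 1) * (Real.exp (-(t / (4 * N))) * Real.exp (-(i : ℝ) ^ 2 / (32 * N))) := by
          ring
      _ ≤ 3 * N ^ (i + 1) * Real.exp (-((i : ℝ) + 1) ^ 2 / (32 * N)) := by
          refine mul_le_mul_of_nonneg_left ?_ (by positivity)
          rw [← Real.exp_add]
          apply Real.exp_le_exp.2
          have e1 : -((t : ℝ) / (4 * N)) + -(i : ℝ) ^ 2 / (32 * N) = -(8 * t + i ^ 2) / (32 * N) := by
            field_simp
            ring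
          rw [e1]
          refine div_le_div_of_nonneg_right ?_ (by positivity)
          nlinarith
  · -- case B
    have h4 := caseB_bound n M i hn hM
    have h5 : (W' : ℝ) ≤ N * W := by linarith
    have h6 : (W' : ℝ) ≤ N * (2 * (N ^ i * Real.exp (-(i : ℝ) / 32))) := by
      refine h5.trans (mul_le_mul_of_nonneg_left ?_ hN0.le)
      linarith
    refine h6.trans ?_
    have h7 : N * (2 * (N ^ i * Real.exp (-(i : ℝ) / 32))) =
        N ^ (i + 1) * (2 * Real.exp (-(i : ℝ) / 32)) := by ring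
    have h8 : 3 * N ^ (i + 1) * Real.exp (-((i : ℝ) + 1) ^ 2 / (32 * N)) =
        N ^ (i + 1) * (3 * Real.exp (-((i : ℝ) + 1) ^ 2 / (32 * N))) := by ring
    rw [h7, h8]
    refine mul_le_mul_of_nonneg_left ?_ (by positivity)
    have h9 : Real.exp (-(i : ℝ) / 32) * Real.exp (-(1 / 32)) ≤
        Real.exp (-((i : ℝ) + 1) ^ 2 / (32 * N)) := by
      rw [← Real.exp_add]
      apply Real.exp_le_exp.2
      have hiN : (i : ℝ) + 1 ≤ N := by
        have : (i : ℝ) ≤ n := by exact_mod_cast hin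
        rw [hN]; linarith
      rw [le_div_iff₀ (by positivity)]
      have hi0 : (0 : ℝ) ≤ i := Nat.cast_nonneg _
      nlinarith
    have h10 : (2 / 3 : ℝ) ≤ Real.exp (-(1 / 32)) := by
      have := Real.add_one_le_exp (-(1 / 32) : ℝ)
      linarith
    have h11 : 0 ≤ Real.exp (-(i : ℝ) / 32) := (Real.exp_pos _).le
    nlinarith

theorem exists_offsets (n M : ℕ) (hn : 3 ≤ n) (hM : 2 * M ≤ n + 3) (d : ℕ) (hd : d ≤ n + 1)
    (r : Fin d → Fin n → ℕ) (hr : ∀ j, Function.Injective (r j)) :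
    ∃ o : Fin d → ℕ, (∀ j, o j < 2) ∧
      (WS M r o : ℝ) ≤ 3 * ((n : ℝ) + 3 / 2) ^ d * Real.exp (-(d : ℝ) ^ 2 / (32 * (n + 3 / 2))) ∧
      (d ≤ 2 → (WS M r o : ℝ) ≤ ((n : ℝ) + 3 / 2) ^ d) := by
  have hnR : (3 : ℝ) ≤ n := by exact_mod_cast hn
  set N : ℝ := (n : ℝ) + 3 / 2 with hN
  have hN0 : 0 < N := by positivity
  induction d with
  | zero =>
    refine ⟨fun _ => 0, fun j => j.elim0, ?_, fun _ => ?_⟩
    · rw [WS_zero]
      simp
    · rw [WS_zero]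
      simp
  | succ d ih =>
    obtain ⟨o, ho, h1, h2⟩ := ih (by omega) (fun j => r j.succ) (fun j => hr j.succ)
    obtain ⟨o0, ho0, h3⟩ := step_exists (M := M) r hr o
    refine ⟨Fin.cons o0 o, ?_, ?_⟩
    · intro j
      refine Fin.cases ?_ (fun j => ?_) j
      · simpa using ho0
      · simpa using ho j
    set W := WS M (fun j => r j.succ) o
    set W' := WS M r (Fin.cons o0 o : Fin (d + 1) → ℕ)
    have hW0 : (0 : ℝ) ≤ W := Nat.cast_nonneg _
    have h4 : (W' : ℝ) ≤ N * W := by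
      have h3' : 2 * W' ≤ (2 * M + n) * W := (Nat.le_add_right _ _).trans h3
      have h3R : 2 * (W' : ℝ) ≤ (2 * M + n) * W := by exact_mod_cast h3'
      have hMR : 2 * (M : ℝ) ≤ n + 3 := by exact_mod_cast hM
      have h5 : (2 * (M : ℝ) + n) * W ≤ 2 * N * W := by
        refine mul_le_mul_of_nonneg_right ?_ hW0
        rw [hN]; linarith
      linarith
    have h5 : d + 1 ≤ 2 → (W' : ℝ) ≤ N ^ (d + 1) := by
      intro hd2
      calc (W' : ℝ) ≤ N * W := h4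
        _ ≤ N * N ^ d := mul_le_mul_of_nonneg_left (h2 (by omega)) hN0.le
        _ = N ^ (d + 1) := by ring
    refine ⟨?_, h5⟩
    rcases le_or_gt (d + 1) 2 with hd2 | hd2
    · refine (h5 hd2).trans ?_
      have h6 : (1 / 3 : ℝ) ≤ Real.exp (-((d + 1 : ℕ) : ℝ) ^ 2 / (32 * N)) := by
        have h7 := Real.add_one_le_exp (-((d + 1 : ℕ) : ℝ) ^ 2 / (32 * N))
        have h8 : ((d + 1 : ℕ) : ℝ) ≤ 2 := by exact_mod_cast hd2
        have h9 : ((d + 1 : ℕ) : ℝ) ^ 2 / (32 * N) ≤ 1 / 36 := by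
          rw [div_le_div_iff₀ (by positivity) (by norm_num)]
          have : (0 : ℝ) ≤ ((d + 1 : ℕ) : ℝ) := Nat.cast_nonneg _
          rw [hN]
          nlinarith
        have h10 : -((d + 1 : ℕ) : ℝ) ^ 2 / (32 * N) = -(((d + 1 : ℕ) : ℝ) ^ 2 / (32 * N)) := by
          ring
        rw [h10] at h7 ⊢
        linarith
      have h11 : (0 : ℝ) < N ^ (d + 1) := by positivity
      nlinarith
    · have h6 := step_real n M d hn hM (by omega) (by omega) W W' _ h3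
        (tangent_sum (M := M) (fun j => r j.succ) o (d / 2)) h1
      push_cast
      exact h6

end Pool.Agent.KS6_43.BD
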