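import Mathlib
import Pool.Agent.KS6_43.BD.LowReal

/-!
Boolean dimension: the lower bound for the maximum Boolean dimension.
-/

set_option autoImplicit false

open Finset

namespace Pool.Agent.KS6_43.BD

open Pool.Agent.TH285.BD

/-- patterns of threshold vectors: the cells cover everything -/
theorem cells_cover (n d M : ℕ) (hM : n + 1 < 2 * M) (r : Fin d → Fin n → ℕ)
    (o : Fin d → ℕ) (ho : ∀ j, o j < 2)
    (p : (Fin n → Bool) → Fin d → ℕ) (hp : ∀ S j, p S j ≤ n)
    (τ : (Fin d → Bool) → Bool)
    (h : ∀ S b, S b = τ (fun j => decide (p S j ≤ r j b))) : 2 ^ n ≤ WS M r o := by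
  classical
  let k : (Fin n → Bool) → Fin d → Fin M := fun S j =>
    ⟨(p S j + o j) / 2, by have := hp S j; have := ho j; omega⟩
  have hc : Fintype.card (Fin n → Bool) = 2 ^ n := by simp
  have h1 : (univ : Finset (Fin n → Bool)).card =
      ∑ κ : Fin d → Fin M, ((univ : Finset (Fin n → Bool)).filter (fun S => k S = κ)).card :=
    Finset.card_eq_sum_card_fiberwise (fun S _ => Finset.mem_coe.2 (Finset.mem_univ _))
  rw [Finset.card_univ, hc] at h1
  rw [h1]
  unfold WS
  refine Finset.sum_le_sum fun κ _ => ?_
  have h2 : ((univ : Finset (Fin n → Bool)).filter (fun S => k S = κ)).card ≤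
      (univ : Finset ((RS r o κ) → Bool)).card := by
    refine Finset.card_le_card_of_injOn (fun S b => S b) (fun S _ => Finset.mem_coe.2 (Finset.mem_univ _)) ?_
    intro S hS T hT hST
    simp only [coe_filter, mem_univ, true_and, Set.mem_ofPred_eq] at hS hT
    funext b
    by_cases hb : b ∈ RS r o κ
    · exact congrFun hST ⟨b, hb⟩
    · rw [h S b, h T b]
      congr 1
      funext j
      rw [decide_eq_decide]
      simp only [RS, mem_filter, mem_univ, true_and, not_exists] at hb
      have hbj := hb j
      have e1 : (p S j + o j) / 2 = (κ j : ℕ) := by rw [← hS]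
      have e2 : (p T j + o j) / 2 = (κ j : ℕ) := by rw [← hT]
      omega
  refine h2.trans ?_
  simp

/-- the thresholds of a realizer of the universal poset -/
theorem realizer_thresholds (n d : ℕ) (L : Fin d → LinearOrder ((Fin n → Bool) ⊕ Fin n))
    (τ : (Fin d → Bool) → Bool) (h : IsRealizer (univPoset n) L τ) :
    ∃ (r : Fin d → Fin n → ℕ) (p : (Fin n → Bool) → Fin d → ℕ),
      (∀ j, Function.Injective (r j)) ∧ (∀ S j, p S j ≤ n) ∧
      ∀ S b, S b = τ (fun j => decide (p S j ≤ r j b)) := by
  classical
  let r : Fin d → Fin n → ℕ := fun j b =>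
    (univ.filter (fun i => (L j).lt (Sum.inr i) (Sum.inr b))).card
  let p : (Fin n → Bool) → Fin d → ℕ := fun S j =>
    (univ.filter (fun i => (L j).lt (Sum.inr i) (Sum.inl S))).card
  have hrlt : ∀ j a b, (L j).lt (Sum.inr a) (Sum.inr b) → r j a < r j b := by
    intro j a b hab
    refine Finset.card_lt_card ⟨?_, ?_⟩
    · intro i hi
      simp only [mem_filter, mem_univ, true_and] at hi ⊢
      exact @lt_trans _ (L j).toPreorder _ _ _ hi hab
    · intro hsub
      have h1 : a ∈ univ.filter (fun i => (L j).lt (Sum.inr i) (Sum.inr b)) := by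
        simp only [mem_filter, mem_univ, true_and]; exact hab
      have h2 := hsub h1
      simp only [mem_filter, mem_univ, true_and] at h2
      exact @lt_irrefl _ (L j).toPreorder _ h2
  refine ⟨r, p, ?_, ?_, ?_⟩
  · intro j a b hab
    rcases @lt_trichotomy _ (L j) (Sum.inr a : (Fin n → Bool) ⊕ Fin n) (Sum.inr b) with h2 | h2 | h2
    · exact absurd (hrlt j a b h2) (by rw [hab]; exact lt_irrefl _)
    · exact Sum.inr_injective h2
    · exact absurd (hrlt j b a h2) (by rw [hab]; exact lt_irrefl _)
  · intro S j
    exact (Finset.card_le_univ _).trans (by simp)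
  · intro S b
    have h1 := h (Sum.inl S) (Sum.inr b) (by simp)
    rw [univPoset_lt] at h1
    have h3 : (fun j => @decide ((L j).lt (Sum.inl S) (Sum.inr b)) (Classical.propDecidable _)) =
        (fun j => decide (p S j ≤ r j b)) := by
      funext j
      rw [decide_eq_decide]
      constructor
      · intro h2
        refine Finset.card_le_card ?_
        intro i hi
        simp only [mem_filter, mem_univ, true_and] at hi ⊢
        exact @lt_trans _ (L j).toPreorder _ _ _ hi h2
      · intro h2
        rcases @lt_trichotomy _ (L j) (Sum.inl S : (Fin n → Bool) ⊕ Fin n) (Sum.inr b) with h4 | h4 | h4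
        · exact h4
        · exact absurd h4 (by simp)
        · exfalso
          have h5 : r j b < p S j := by
            refine Finset.card_lt_card ⟨?_, ?_⟩
            · intro i hi
              simp only [mem_filter, mem_univ, true_and] at hi ⊢
              exact @lt_trans _ (L j).toPreorder _ _ _ hi h4
            · intro hsub
              have h6 : b ∈ univ.filter (fun i => (L j).lt (Sum.inr i) (Sum.inl S)) := by
                simp only [mem_filter, mem_univ, true_and]; exact h4
              have h7 := hsub h6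
              simp only [mem_filter, mem_univ, true_and] at h7
              exact @lt_irrefl _ (L j).toPreorder _ h7
          omega
    rw [h3] at h1
    exact Bool.eq_iff_iff.2 h1

/-- the lower bound: `2 ^ n ≤ 3 (n + 3/2) ^ d exp (- d² / (32 (n + 3/2)))` for `d = f n` -/
theorem f_lower_exp (n : ℕ) (hn : 3 ≤ n) (hd : f n ≤ n + 1) :
    (2 : ℝ) ^ n ≤ 3 * ((n : ℝ) + 3 / 2) ^ (f n) *
      Real.exp (-(f n : ℝ) ^ 2 / (32 * (n + 3 / 2))) := by
  obtain ⟨_, L, τ, h⟩ := bdim_spec (univPoset n) n (univPoset_antichainPlus n)
  have hb : bdim (univPoset n) ≤ f n :=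
    (f_isGreatest n).2 ⟨_, inferInstance, univPoset n, univPoset_antichainPlus n, rfl⟩
  -- pad the realizer to size `f n`
  obtain ⟨r, p, hr, hp, hS⟩ := realizer_thresholds n _ L τ h
  obtain ⟨r', p', τ', hr', hp', hS'⟩ : ∃ (r' : Fin (f n) → Fin n → ℕ)
      (p' : (Fin n → Bool) → Fin (f n) → ℕ) (τ' : (Fin (f n) → Bool) → Bool),
      (∀ j, Function.Injective (r' j)) ∧ (∀ S j, p' S j ≤ n) ∧
      ∀ S b, S b = τ' (fun j => decide (p' S j ≤ r' j b)) := by
    refine ⟨fun j b => if h : (j : ℕ) < bdim (univPoset n) then r ⟨j, h⟩ b else b,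
      fun S j => if h : (j : ℕ) < bdim (univPoset n) then p S ⟨j, h⟩ else 0,
      fun v => τ (fun j => v (Fin.castLE hb j)), ?_, ?_, ?_⟩
    · intro j
      by_cases hj : (j : ℕ) < bdim (univPoset n)
      · intro a b hab
        simp only [hj, dite_true] at hab
        exact hr _ hab
      · intro a b hab
        simp only [hj, dite_false] at hab
        exact Fin.ext hab
    · intro S j
      by_cases hj : (j : ℕ) < bdim (univPoset n)
      · simp only [hj, dite_true]; exact hp _ _
      · simp only [hj, dite_false]; omega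
    · intro S b
      rw [hS S b]
      congr 1
      funext j
      simp
  obtain ⟨o, ho, h1, _⟩ := exists_offsets n ((n + 3) / 2) hn (by omega) (f n) hd r' hr'
  have h2 := cells_cover n (f n) ((n + 3) / 2) (by omega) r' o ho p' hp' τ' hS'
  have h3 : (2 : ℝ) ^ n ≤ (WS ((n + 3) / 2) r' o : ℝ) := by exact_mod_cast h2
  exact h3.trans h1

end Pool.Agent.KS6_43.BD
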