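import Mathlib
import Pool.Graph.R_seed8.TH285.BD.Exist

/-!
Boolean dimension: second moment of the character sums of a random chain.
-/

set_option autoImplicit false

open Finset

namespace Pool.Agent.KS6_43.BD

open Pool.Agent.TH285.BD

/-- sign of a bit -/
def sg (b : Bool) : ℝ := if b then -1 else 1

/-- the character sum over the suffix sets -/
noncomputable def sS (n : ℕ) (ξ : Fin n → Bool) : ℝ :=
  ∑ g : Fin (n + 1), ∏ l : Fin n, if (g : ℕ) ≤ l then sg (ξ l) else 1

/-- weight -/
def wt {n : ℕ} (ξ : Fin n → Bool) : ℕ := (univ.filter (fun i => ξ i = true)).card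

lemma sS_zero (ξ : Fin 0 → Bool) : sS 0 ξ = 1 := by
  simp [sS]

lemma wt_zero (ξ : Fin 0 → Bool) : wt ξ = 0 := by
  simp [wt]

lemma sS_snoc (n : ℕ) (ξ : Fin n → Bool) (a : Bool) :
    sS (n + 1) (Fin.snoc ξ a : Fin (n + 1) → Bool) = 1 + sg a * sS n ξ := by
  unfold sS
  rw [Fin.sum_univ_castSucc, add_comm]
  congr 1
  · apply Finset.prod_eq_one
    intro l _
    rw [if_neg]
    simp only [Fin.val_last]
    omega
  · rw [Finset.mul_sum]
    refine Finset.sum_congr rfl fun g _ => ?_
    rw [Fin.prod_univ_castSucc, mul_comm]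
    congr 1
    · rw [if_pos]
      · simp
      · simp only [Fin.val_castSucc, Fin.val_last]; omega
    · refine Finset.prod_congr rfl fun l _ => ?_
      simp

lemma wt_snoc (n : ℕ) (ξ : Fin n → Bool) (a : Bool) :
    wt (Fin.snoc ξ a : Fin (n + 1) → Bool) = wt ξ + (if a then 1 else 0) := by
  unfold wt
  rw [Finset.card_filter, Finset.card_filter, Fin.sum_univ_castSucc]
  congr 1
  · refine Finset.sum_congr rfl fun l _ => ?_
    simp
  · simp

/-- sums over vectors of given weight -/
noncomputable def TT (n w : ℕ) (F : (Fin n → Bool) → ℝ) : ℝ :=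
  ∑ ξ : Fin n → Bool, if wt ξ = w then F ξ else 0

lemma sum_snoc (n : ℕ) (F : (Fin (n + 1) → Bool) → ℝ) :
    ∑ ξ, F ξ = ∑ a : Bool, ∑ ξ : Fin n → Bool, F (Fin.snoc ξ a : Fin (n + 1) → Bool) := by
  rw [← (Fin.snocEquiv (fun _ : Fin (n + 1) => Bool)).sum_comp, Fintype.sum_prod_type]
  rfl

lemma TT_succ_zero (n : ℕ) (F : (Fin (n + 1) → Bool) → ℝ) :
    TT (n + 1) 0 F = TT n 0 (fun ξ => F (Fin.snoc ξ false : Fin (n + 1) → Bool)) := by
  unfold TT
  rw [sum_snoc, Fintype.sum_bool]
  simp [wt_snoc]

lemma TT_succ_succ (n w : ℕ) (F : (Fin (n + 1) → Bool) → ℝ) :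
    TT (n + 1) (w + 1) F = TT n (w + 1) (fun ξ => F (Fin.snoc ξ false : Fin (n + 1) → Bool)) +
      TT n w (fun ξ => F (Fin.snoc ξ true : Fin (n + 1) → Bool)) := by
  unfold TT
  rw [sum_snoc, Fintype.sum_bool, add_comm]
  simp [wt_snoc]

lemma TT_add (n w : ℕ) (F G : (Fin n → Bool) → ℝ) :
    TT n w (fun ξ => F ξ + G ξ) = TT n w F + TT n w G := by
  unfold TT
  rw [← Finset.sum_add_distrib]
  refine Finset.sum_congr rfl fun ξ _ => ?_
  split_ifs <;> simp

lemma TT_smul (n w : ℕ) (c : ℝ) (F : (Fin n → Bool) → ℝ) :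
    TT n w (fun ξ => c * F ξ) = c * TT n w F := by
  unfold TT
  rw [Finset.mul_sum]
  refine Finset.sum_congr rfl fun ξ _ => ?_
  split_ifs <;> simp

lemma TT_one (n w : ℕ) : TT n w (fun _ => 1) = (n.choose w : ℝ) := by
  induction n generalizing w with
  | zero =>
    unfold TT
    rw [Fintype.sum_unique, wt_zero]
    cases w <;> simp
  | succ n ih =>
    cases w with
    | zero => rw [TT_succ_zero, ih]; simp
    | succ w =>
      rw [TT_succ_succ, ih, ih, Nat.choose_succ_succ]
      push_cast
      ring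

/-- first moments -/
lemma TT_s (n w : ℕ) :
    TT n w (fun ξ => sS n ξ) = if Even w then ((n + 1).choose (w + 1) : ℝ) else 0 := by
  induction n generalizing w with
  | zero =>
    unfold TT
    simp only [Fintype.sum_unique, wt_zero, sS_zero]
    cases w with
    | zero => simp
    | succ w =>
      rw [if_neg (by omega)]
      simp
  | succ n ih =>
    cases w with
    | zero =>
      rw [TT_succ_zero]
      simp_rw [sS_snoc]
      rw [TT_add, TT_one, TT_smul, ih]
      simp [sg]
      ring
    | succ w =>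
      rw [TT_succ_succ]
      simp_rw [sS_snoc]
      rw [TT_add, TT_add, TT_one, TT_one, TT_smul, TT_smul, ih, ih]
      have e1 : (n + 1 + 1).choose (w + 1 + 1) = (n + 1).choose (w + 1) + (n + 1).choose (w + 2) :=
        Nat.choose_succ_succ _ _
      have e2 : (n + 1).choose (w + 1) = n.choose w + n.choose (w + 1) := Nat.choose_succ_succ _ _
      rw [e1]
      have e2R : ((n + 1).choose (w + 1) : ℝ) = n.choose w + n.choose (w + 1) := by exact_mod_cast e2
      by_cases hw : Even w
      · have hw1 : ¬ Even (w + 1) := by rw [Nat.even_add_one]; exact not_not.2 hw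
        simp only [if_pos hw, if_neg hw1, sg]
        push_cast
        simp
        linarith
      · have hw1 : Even (w + 1) := by rw [Nat.even_add_one]; exact hw
        simp only [if_neg hw, if_pos hw1, sg]
        push_cast
        simp
        linarith

/-- second moments -/
lemma TT_s2 (n w : ℕ) :
    TT n w (fun ξ => sS n ξ ^ 2) = ((w : ℝ) + 1) * ((n + 1).choose (w + 2) : ℝ) +
      if Even w then ((n + 2).choose (w + 2) : ℝ) else 0 := by
  induction n generalizing w with
  | zero =>
    unfold TT
    simp only [Fintype.sum_unique, wt_zero, sS_zero]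
    cases w with
    | zero => simp
    | succ w =>
      rw [if_neg (by omega)]
      have h1 : (0 + 1).choose (w + 1 + 2) = 0 := Nat.choose_eq_zero_of_lt (by omega)
      have h2 : (0 + 2).choose (w + 1 + 2) = 0 := Nat.choose_eq_zero_of_lt (by omega)
      rw [h1, h2]
      simp
  | succ n ih =>
    have hexp : ∀ a : Bool, ∀ ξ : Fin n → Bool,
        sS (n + 1) (Fin.snoc ξ a : Fin (n + 1) → Bool) ^ 2 = 1 + ((2 * sg a) * sS n ξ + sS n ξ ^ 2) := by
      intro a ξ
      rw [sS_snoc]
      have : sg a ^ 2 = 1 := by cases a <;> simp [sg]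
      linear_combination (sS n ξ) ^ 2 * this
    cases w with
    | zero =>
      rw [TT_succ_zero]
      simp_rw [hexp]
      rw [TT_add, TT_one, TT_add, TT_smul, ih, TT_s]
      have e1 : (n + 1 + 1).choose (0 + 2) = (n + 1).choose 1 + (n + 1).choose 2 :=
        Nat.choose_succ_succ _ _
      have e2 : (n + 1 + 2).choose (0 + 2) = (n + 2).choose 1 + (n + 2).choose 2 :=
        Nat.choose_succ_succ _ _
      have e3 : (n + 2).choose 2 = (n + 1).choose 1 + (n + 1).choose 2 := Nat.choose_succ_succ _ _
      rw [e1, e2]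
      simp only [zero_add, e3]
      simp [sg]
      ring
    | succ w =>
      rw [TT_succ_succ]
      simp_rw [hexp]
      rw [TT_add, TT_add, TT_add, TT_add, TT_one, TT_one, TT_smul, TT_smul, ih, ih, TT_s, TT_s]
      have e1 : ((n + 1 + 1).choose (w + 1 + 2) : ℝ) = (n + 1).choose (w + 2) + (n + 1).choose (w + 3) := by
        exact_mod_cast Nat.choose_succ_succ _ _
      have e2 : ((n + 1 + 2).choose (w + 1 + 2) : ℝ) = (n + 2).choose (w + 2) + (n + 2).choose (w + 3) := by
        exact_mod_cast Nat.choose_succ_succ _ _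
      have e3 : ((n + 1).choose (w + 1) : ℝ) = n.choose w + n.choose (w + 1) := by
        exact_mod_cast Nat.choose_succ_succ _ _
      have e4 : ((n + 2).choose (w + 2) : ℝ) = (n + 1).choose (w + 1) + (n + 1).choose (w + 2) := by
        exact_mod_cast Nat.choose_succ_succ _ _
      have e5 : (n + 1 : ℕ).choose (w + 1 + 2) = (n + 1).choose (w + 3) := rfl
      have e6 : (n + 1 : ℕ).choose (w + 1 + 1) = (n + 1).choose (w + 2) := rfl
      have e7 : (n + 2 : ℕ).choose (w + 1 + 2) = (n + 2).choose (w + 3) := rfl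
      rw [e1, e2, e5, e6, e7]
      push_cast
      by_cases hw : Even w
      · have hw1 : ¬ Even (w + 1) := by rw [Nat.even_add_one]; exact not_not.2 hw
        simp only [if_pos hw, if_neg hw1, sg]
        simp
        linarith
      · have hw1 : Even (w + 1) := by rw [Nat.even_add_one]; exact hw
        simp only [if_neg hw, if_pos hw1, sg]
        simp
        linarith

end Pool.Agent.KS6_43.BD
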