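import Mathlib
import Pool.Agent.KS6_43.BD.Mom

/-!
Boolean dimension: collisions of random chains.
-/

set_option autoImplicit false

open Finset

namespace Pool.Agent.KS6_43.BD

open Pool.Agent.TH285.BD

/-- sum over permutations -/
noncomputable def ZZ (n : ℕ) (ξ : Fin n → Bool) : ℝ :=
  ∑ π : Equiv.Perm (Fin n), sS n (ξ ∘ π) ^ 2

lemma wt_comp {n : ℕ} (σ : Equiv.Perm (Fin n)) (ξ : Fin n → Bool) : wt (ξ ∘ σ) = wt ξ := by
  unfold wt
  rw [Finset.card_filter, Finset.card_filter]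
  exact Equiv.sum_comp σ (fun i => if ξ i = true then 1 else 0)

lemma ZZ_comp {n : ℕ} (σ : Equiv.Perm (Fin n)) (ξ : Fin n → Bool) : ZZ n (ξ ∘ σ) = ZZ n ξ := by
  unfold ZZ
  rw [← Equiv.sum_comp (Equiv.mulLeft σ) (fun π : Equiv.Perm (Fin n) => sS n (ξ ∘ π) ^ 2)]
  rfl

lemma exists_perm {n : ℕ} (ξ η : Fin n → Bool) (h : wt ξ = wt η) :
    ∃ σ : Equiv.Perm (Fin n), η = ξ ∘ σ := by
  classical
  have e : {i // η i = true} ≃ {i // ξ i = true} := by
    refine Fintype.equivOfCardEq ?_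
    rw [Fintype.card_subtype, Fintype.card_subtype]
    exact h.symm
  refine ⟨e.extendSubtype, ?_⟩
  funext i
  simp only [Function.comp_apply]
  by_cases hi : η i = true
  · rw [hi]
    exact (e.extendSubtype_mem i hi).symm
  · have h1 := e.extendSubtype_not_mem i hi
    rw [Bool.not_eq_true] at hi h1
    rw [hi, h1]

lemma TT_comp (n w : ℕ) (π : Equiv.Perm (Fin n)) (F : (Fin n → Bool) → ℝ) :
    TT n w (fun ξ => F (ξ ∘ π)) = TT n w F := by
  unfold TT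
  rw [← Equiv.sum_comp (Equiv.arrowCongr π.symm (Equiv.refl Bool))
    (fun ξ => if wt ξ = w then F ξ else 0)]
  refine Finset.sum_congr rfl fun ξ _ => ?_
  have : (Equiv.arrowCongr π.symm (Equiv.refl Bool)) ξ = ξ ∘ π := by
    funext i
    simp [Equiv.arrowCongr]
  rw [this, wt_comp]

lemma TT_ZZ (n w : ℕ) :
    TT n w (fun ξ => ZZ n ξ) = (n.factorial : ℝ) * TT n w (fun ξ => sS n ξ ^ 2) := by
  have h1 : TT n w (fun ξ => ZZ n ξ) =
      ∑ π : Equiv.Perm (Fin n), TT n w (fun ξ => sS n (ξ ∘ π) ^ 2) := by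
    unfold TT ZZ
    rw [Finset.sum_comm]
    refine Finset.sum_congr rfl fun ξ _ => ?_
    split_ifs
    · rfl
    · simp
  rw [h1]
  have h2 : ∀ π : Equiv.Perm (Fin n), TT n w (fun ξ => sS n (ξ ∘ π) ^ 2) =
      TT n w (fun ξ => sS n ξ ^ 2) := fun π => TT_comp n w π (fun ξ => sS n ξ ^ 2)
  simp_rw [h2]
  rw [Finset.sum_const, Finset.card_univ, Fintype.card_perm, Fintype.card_fin, nsmul_eq_mul]

lemma ZZ_eq (n : ℕ) (ξ : Fin n → Bool) :
    (n.choose (wt ξ) : ℝ) * ZZ n ξ = (n.factorial : ℝ) * TT n (wt ξ) (fun ξ => sS n ξ ^ 2) := by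
  rw [← TT_ZZ, ← TT_one, mul_comm, ← TT_smul]
  unfold TT
  refine Finset.sum_congr rfl fun η _ => ?_
  split_ifs with h
  · obtain ⟨σ, hσ⟩ := exists_perm ξ η h.symm
    show ZZ n ξ * 1 = ZZ n η
    rw [hσ, ZZ_comp, mul_one]
  · rfl

lemma wt_le {n : ℕ} (ξ : Fin n → Bool) : wt ξ ≤ n := by
  unfold wt
  exact (Finset.card_le_univ _).trans (by simp)

lemma TT_s2_le (n w : ℕ) (hw : w ≤ n) :
    ((w : ℝ) + 1) * TT n w (fun ξ => sS n ξ ^ 2) ≤
      (n.choose w : ℝ) * (((n : ℝ) + 1) * ((n : ℝ) + 1 - w)) := by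
  rw [TT_s2]
  set A : ℝ := ((n + 1).choose (w + 1) : ℝ) with hA
  set B : ℝ := ((n + 1).choose (w + 2) : ℝ) with hB
  have hA0 : 0 ≤ A := Nat.cast_nonneg _
  have hB0 : 0 ≤ B := Nat.cast_nonneg _
  have h1 : ((n + 2).choose (w + 2) : ℝ) = A + B := by
    rw [hA, hB]
    exact_mod_cast Nat.choose_succ_succ _ _
  have h2 : ((n : ℝ) + 1) * (n.choose w : ℝ) = A * ((w : ℝ) + 1) := by
    rw [hA]
    exact_mod_cast Nat.add_one_mul_choose_eq n w
  have h3 : B * ((w : ℝ) + 2) = A * ((n : ℝ) - w) := by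
    have h4 := Nat.choose_succ_right_eq (n + 1) (w + 1)
    have h5 : n + 1 - (w + 1) = n - w := by omega
    rw [h5] at h4
    have h6 : (((n + 1).choose (w + 2) : ℝ)) * ((w : ℝ) + 1 + 1) =
        ((n + 1).choose (w + 1) : ℝ) * ((n - w : ℕ) : ℝ) := by exact_mod_cast h4
    rw [Nat.cast_sub hw] at h6
    rw [hA, hB]
    linarith
  have hw0 : (0 : ℝ) ≤ w := Nat.cast_nonneg _
  have h7 : (n.choose w : ℝ) * (((n : ℝ) + 1) * ((n : ℝ) + 1 - w)) =
      (A * ((w : ℝ) + 1)) * ((n : ℝ) + 1 - w) := by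
    rw [← h2]; ring
  rw [h7]
  have h8 : ((w : ℝ) + 1) * B + (if Even w then ((n + 2).choose (w + 2) : ℝ) else 0) ≤
      A * ((n : ℝ) + 1 - w) := by
    split_ifs
    · rw [h1]; linarith
    · linarith
  calc ((w : ℝ) + 1) * (((w : ℝ) + 1) * B + (if Even w then ((n + 2).choose (w + 2) : ℝ) else 0))
      ≤ ((w : ℝ) + 1) * (A * ((n : ℝ) + 1 - w)) := mul_le_mul_of_nonneg_left h8 (by linarith)
    _ = _ := by ring

/-- the normalised second moment -/
noncomputable def aw (n w : ℕ) : ℝ := ((n : ℝ) + 1 - w) / (((n : ℝ) + 1) * ((w : ℝ) + 1))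

lemma aw_nonneg (n w : ℕ) (hw : w ≤ n) : 0 ≤ aw n w := by
  unfold aw
  have : (w : ℝ) ≤ n := by exact_mod_cast hw
  refine div_nonneg (by linarith) (by positivity)

lemma ZZ_le (n : ℕ) (ξ : Fin n → Bool) :
    ZZ n ξ ≤ (n.factorial : ℝ) * (((n : ℝ) + 1) ^ 2 * aw n (wt ξ)) := by
  have hw := wt_le ξ
  have h1 := ZZ_eq n ξ
  have h2 := TT_s2_le n (wt ξ) hw
  have hc : (0 : ℝ) < n.choose (wt ξ) := by exact_mod_cast Nat.choose_pos hw
  have hf : (0 : ℝ) < n.factorial := by exact_mod_cast n.factorial_pos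
  have hw1 : (0 : ℝ) < (wt ξ : ℝ) + 1 := by positivity
  have e1 : ((n : ℝ) + 1) ^ 2 * aw n (wt ξ) = ((n : ℝ) + 1) * ((n : ℝ) + 1 - wt ξ) / ((wt ξ : ℝ) + 1) := by
    unfold aw
    field_simp
  rw [e1]
  have h3 : (n.choose (wt ξ) : ℝ) * ZZ n ξ ≤ (n.choose (wt ξ) : ℝ) *
      ((n.factorial : ℝ) * (((n : ℝ) + 1) * ((n : ℝ) + 1 - wt ξ) / ((wt ξ : ℝ) + 1))) := by
    rw [h1]
    have h4 : TT n (wt ξ) (fun ξ => sS n ξ ^ 2) ≤
        (n.choose (wt ξ) : ℝ) * (((n : ℝ) + 1) * ((n : ℝ) + 1 - wt ξ) / ((wt ξ : ℝ) + 1)) := by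
      rw [mul_div_assoc', le_div_iff₀ hw1, mul_comm]
      exact h2
    calc _ ≤ (n.factorial : ℝ) * ((n.choose (wt ξ) : ℝ) *
          (((n : ℝ) + 1) * ((n : ℝ) + 1 - wt ξ) / ((wt ξ : ℝ) + 1))) :=
          mul_le_mul_of_nonneg_left h4 hf.le
      _ = _ := by ring
  exact le_of_mul_le_mul_left h3 hc

lemma ZZ_nonneg (n : ℕ) (ξ : Fin n → Bool) : 0 ≤ ZZ n ξ :=
  Finset.sum_nonneg fun _ _ => sq_nonneg _

lemma ZZ_symm (n : ℕ) (ξ : Fin n → Bool) :
    ∑ π : Equiv.Perm (Fin n), sS n (ξ ∘ π.symm) ^ 2 = ZZ n ξ := by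
  unfold ZZ
  exact Equiv.sum_comp (Equiv.inv (Equiv.Perm (Fin n))) (fun π => sS n (ξ ∘ π) ^ 2)

lemma char_sum (n : ℕ) (ξ : Fin n → Bool) (π : Equiv.Perm (Fin n)) :
    ∑ g : Fin (n + 1), ∏ i : Fin n, (if ξ i then ch (bt g (π i)) else 1) = sS n (ξ ∘ π.symm) := by
  unfold sS
  refine Finset.sum_congr rfl fun g _ => ?_
  rw [← Equiv.prod_comp π (fun l : Fin n => if (g : ℕ) ≤ l then sg ((ξ ∘ π.symm) l) else 1)]
  refine Finset.prod_congr rfl fun i _ => ?_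
  simp only [Function.comp_apply, Equiv.symm_apply_apply, bt, sg]
  by_cases h1 : ξ i = true <;> by_cases h2 : (g : ℕ) ≤ (π i : ℕ) <;> simp [h1, h2, ch_zero, ch_one]

/-- labels from permutations -/
def lamP {n d : ℕ} (π : Fin d → Equiv.Perm (Fin n)) : Fin n → Fin d → Fin n := fun i j => π j i

lemma coll_eq (n d : ℕ) (π : Fin d → Equiv.Perm (Fin n)) :
    coll (n + 1) (lamP π) = (1 / 2 : ℝ) ^ n * ∑ ξ : Fin n → Bool, ∏ j, sS n (ξ ∘ (π j).symm) ^ 2 := by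
  unfold coll
  simp_rw [ind_eq]
  have h1 : ∀ p : (Fin d → Fin (n + 1)) × (Fin d → Fin (n + 1)),
      ∏ i, (1 + ch (vec (lamP π) p.1 i + vec (lamP π) p.2 i)) / 2 =
      (1 / 2 : ℝ) ^ n * ∑ ξ : Fin n → Bool,
        (∏ i, (if ξ i then ch (vec (lamP π) p.1 i) else 1)) *
          (∏ i, (if ξ i then ch (vec (lamP π) p.2 i) else 1)) := by
    intro p
    have e1 : ∀ i : Fin n, (1 + ch (vec (lamP π) p.1 i + vec (lamP π) p.2 i)) / 2 =
        (1 / 2) * ∑ b : Bool, (if b then ch (vec (lamP π) p.1 i) else 1) *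
          (if b then ch (vec (lamP π) p.2 i) else 1) := by
      intro i
      rw [Fintype.sum_bool, ch_add]
      simp
      ring
    simp_rw [e1]
    rw [Finset.prod_mul_distrib, Finset.prod_const, Finset.card_univ, Fintype.card_fin,
      Fintype.prod_sum (fun (i : Fin n) (b : Bool) => (if b then ch (vec (lamP π) p.1 i) else 1) *
          (if b then ch (vec (lamP π) p.2 i) else 1))]
    simp_rw [Finset.prod_mul_distrib]
  simp_rw [h1]
  rw [← Finset.mul_sum, Finset.sum_comm]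
  congr 1
  refine Finset.sum_congr rfl fun ξ _ => ?_
  rw [Fintype.sum_prod_type]
  simp only
  rw [← Finset.sum_mul_sum, ← sq]
  rw [Finset.prod_pow]
  congr 1
  have h2 : ∀ g : Fin d → Fin (n + 1), ∏ i, (if ξ i then ch (vec (lamP π) g i) else 1) =
      ∏ j, ∏ i, (if ξ i then ch (bt (g j) (π j i)) else 1) := by
    intro g
    rw [Finset.prod_comm]
    refine Finset.prod_congr rfl fun i _ => ?_
    split_ifs
    · rw [vec, ch_sum]
      rfl
    · simp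
  simp_rw [h2]
  rw [← Fintype.prod_sum (fun (j : Fin d) (g : Fin (n + 1)) =>
    ∏ i, (if ξ i then ch (bt g (π j i)) else 1))]
  refine Finset.prod_congr rfl fun j _ => ?_
  exact char_sum n ξ (π j)

lemma sum_coll_perm (n d : ℕ) :
    ∑ π : Fin d → Equiv.Perm (Fin n), coll (n + 1) (lamP π) =
      (1 / 2 : ℝ) ^ n * ∑ ξ : Fin n → Bool, ZZ n ξ ^ d := by
  simp_rw [coll_eq]
  rw [← Finset.mul_sum, Finset.sum_comm]
  congr 1
  refine Finset.sum_congr rfl fun ξ _ => ?_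
  rw [← Fintype.prod_sum (fun (_ : Fin d) (π : Equiv.Perm (Fin n)) => sS n (ξ ∘ π.symm) ^ 2)]
  rw [Finset.prod_const, Finset.card_univ, Fintype.card_fin, ZZ_symm]

lemma sum_wt (n : ℕ) (G : ℕ → ℝ) :
    ∑ ξ : Fin n → Bool, G (wt ξ) = ∑ w ∈ range (n + 1), (n.choose w : ℝ) * G w := by
  have h1 : ∀ ξ : Fin n → Bool, G (wt ξ) = ∑ w ∈ range (n + 1), if wt ξ = w then G w else 0 := by
    intro ξ
    rw [Finset.sum_ite_eq, if_pos (Finset.mem_range.2 (Nat.lt_succ_of_le (wt_le ξ)))]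
  simp_rw [h1]
  rw [Finset.sum_comm]
  refine Finset.sum_congr rfl fun w _ => ?_
  rw [← TT_one, mul_comm, ← TT_smul]
  unfold TT
  simp

lemma sum_coll_perm_le (n d : ℕ) :
    ∑ π : Fin d → Equiv.Perm (Fin n), coll (n + 1) (lamP π) ≤
      (n.factorial : ℝ) ^ d * ((1 / 2 : ℝ) ^ n * (((n : ℝ) + 1) ^ d) ^ 2 *
        ∑ w ∈ range (n + 1), (n.choose w : ℝ) * aw n w ^ d) := by
  rw [sum_coll_perm]
  have h1 : ∑ ξ : Fin n → Bool, ZZ n ξ ^ d ≤
      ∑ ξ : Fin n → Bool, (n.factorial : ℝ) ^ d * (((n : ℝ) + 1) ^ d) ^ 2 * aw n (wt ξ) ^ d := by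
    refine Finset.sum_le_sum fun ξ _ => ?_
    refine (pow_le_pow_left₀ (ZZ_nonneg n ξ) (ZZ_le n ξ) d).trans (le_of_eq ?_)
    rw [mul_pow, mul_pow, ← pow_mul, ← pow_mul, mul_comm 2 d, mul_assoc]
  refine (mul_le_mul_of_nonneg_left h1 (by positivity)).trans (le_of_eq ?_)
  rw [← Finset.mul_sum, sum_wt n (fun w => aw n w ^ d)]
  ring

/-- few collisions give a large image -/
lemma large_image (n d q h : ℕ) (hh : 1 ≤ h) (lam : Fin n → Fin d → Fin q)
    (hlam : coll h lam ≤ 2 * ((h : ℝ) ^ d) ^ 2 / 2 ^ n) :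
    2 ^ n ≤ 2 * (Finset.univ.image (fun g : Fin d → Fin h => vec lam g)).card := by
  classical
  have hh0 : (0 : ℝ) < h := by exact_mod_cast hh
  set I := Finset.univ.image (fun g : Fin d → Fin h => vec lam g) with hI
  let N : (Fin n → ZMod 2) → ℝ := fun S => ∑ g : Fin d → Fin h, if vec lam g = S then (1 : ℝ) else 0
  have h5 : ∑ S ∈ I, N S = (h : ℝ) ^ d := by
    simp only [N]
    rw [Finset.sum_comm]
    have : ∀ g : Fin d → Fin h, ∑ S ∈ I, (if vec lam g = S then (1 : ℝ) else 0) = 1 := by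
      intro g
      rw [Finset.sum_ite_eq, if_pos]
      exact Finset.mem_image_of_mem _ (Finset.mem_univ g)
    simp_rw [this]
    simp
  have h6 : ∑ S ∈ I, N S ^ 2 = coll h lam := by
    have h7 : ∀ S, N S ^ 2 = ∑ p : (Fin d → Fin h) × (Fin d → Fin h),
        (if vec lam p.1 = S then (1 : ℝ) else 0) * (if vec lam p.2 = S then (1 : ℝ) else 0) := by
      intro S
      rw [sq, Fintype.sum_prod_type, Finset.sum_mul_sum]
    simp_rw [h7]
    rw [Finset.sum_comm]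
    unfold coll
    refine Finset.sum_congr rfl fun p _ => ?_
    have h8 : ∀ S ∈ I, (if vec lam p.1 = S then (1 : ℝ) else 0) * (if vec lam p.2 = S then (1 : ℝ) else 0)
        = if vec lam p.1 = S then (if vec lam p.2 = vec lam p.1 then (1 : ℝ) else 0) else 0 := by
      intro S _
      by_cases hS : vec lam p.1 = S
      · subst hS; simp
      · simp [hS]
    rw [Finset.sum_congr rfl h8, Finset.sum_ite_eq, if_pos (Finset.mem_image_of_mem _ (Finset.mem_univ _))]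
    simp [eq_comm]
  have h9 := sq_sum_le_card_mul_sum_sq (s := I) (f := N)
  rw [h5, h6] at h9
  have h10 : ((h : ℝ) ^ d) ^ 2 ≤ (I.card : ℝ) * (2 * ((h : ℝ) ^ d) ^ 2 / 2 ^ n) :=
    h9.trans (mul_le_mul_of_nonneg_left hlam (Nat.cast_nonneg _))
  have h11 : (0 : ℝ) < ((h : ℝ) ^ d) ^ 2 := by positivity
  have h12 : (2 : ℝ) ^ n ≤ 2 * I.card := by
    have h13 : (I.card : ℝ) * (2 * ((h : ℝ) ^ d) ^ 2 / 2 ^ n) = (2 * I.card / 2 ^ n) * ((h : ℝ) ^ d) ^ 2 := by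
      ring
    rw [h13] at h10
    have h14 : 1 ≤ 2 * (I.card : ℝ) / 2 ^ n := by
      by_contra hc
      push Not at hc
      nlinarith
    rwa [le_div_iff₀ (by positivity), one_mul] at h14
  exact_mod_cast h12

/-- permutations for which the image is at least half of everything -/
theorem exists_half_perm (n d : ℕ)
    (hsum : ∑ w ∈ range (n + 1), (n.choose w : ℝ) * aw n w ^ d ≤ 2) :
    ∃ π : Fin d → Equiv.Perm (Fin n),
      2 ^ n ≤ 2 * (Finset.univ.image (fun g : Fin d → Fin (n + 1) => vec (lamP π) g)).card := by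
  classical
  have h1 := sum_coll_perm_le n d
  have h2 : ∃ π : Fin d → Equiv.Perm (Fin n),
      coll (n + 1) (lamP π) ≤ 2 * (((n + 1 : ℕ) : ℝ) ^ d) ^ 2 / 2 ^ n := by
    by_contra hcon
    push Not at hcon
    have hne : (Finset.univ : Finset (Fin d → Equiv.Perm (Fin n))).Nonempty :=
      ⟨fun _ => 1, Finset.mem_univ _⟩
    have h3 := Finset.sum_lt_sum_of_nonempty hne (fun π _ => hcon π)
    rw [Finset.sum_const, Finset.card_univ, nsmul_eq_mul] at h3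
    have h4 : ((Fintype.card (Fin d → Equiv.Perm (Fin n)) : ℕ) : ℝ) = (n.factorial : ℝ) ^ d := by
      simp [Fintype.card_perm]
    rw [h4] at h3
    have h5 := h3.trans_le h1
    have hf : (0 : ℝ) < (n.factorial : ℝ) ^ d := by
      have : (0 : ℝ) < n.factorial := by exact_mod_cast n.factorial_pos
      positivity
    have h6 := lt_of_mul_lt_mul_left h5 hf.le
    have h7 : (1 / 2 : ℝ) ^ n * (((n : ℝ) + 1) ^ d) ^ 2 *
        ∑ w ∈ range (n + 1), (n.choose w : ℝ) * aw n w ^ d ≤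
        (1 / 2 : ℝ) ^ n * (((n : ℝ) + 1) ^ d) ^ 2 * 2 :=
      mul_le_mul_of_nonneg_left hsum (by positivity)
    have h8 : 2 * (((n + 1 : ℕ) : ℝ) ^ d) ^ 2 / 2 ^ n = (1 / 2 : ℝ) ^ n * (((n : ℝ) + 1) ^ d) ^ 2 * 2 := by
      push_cast
      rw [one_div, inv_pow]
      ring
    rw [h8] at h6
    linarith
  obtain ⟨π, hπ⟩ := h2
  exact ⟨π, large_image n d n (n + 1) (by omega) (lamP π) hπ⟩

end Pool.Agent.KS6_43.BD
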