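import Mathlib
import Pool.Agent.KS6_43.BD.PermC
import Pool.Graph.R_seed8.TH285.BD.Labels

/-!
Boolean dimension: numerical estimate of the collision sum.
-/

set_option autoImplicit false

open Finset

namespace Pool.Agent.KS6_43.BD

open Pool.Agent.TH285.BD

lemma aw_zero (n : ℕ) : aw n 0 = 1 := by
  unfold aw
  rw [div_eq_one_iff_eq (by positivity)]
  simp

lemma aw_le_inv (n w : ℕ) : aw n w ≤ 1 / ((w : ℝ) + 1) := by
  unfold aw
  rw [div_le_div_iff₀ (by positivity) (by positivity)]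
  have hw : (0 : ℝ) ≤ w := Nat.cast_nonneg _
  nlinarith

/-- large weights -/
lemma aw_large (n w d : ℕ) (h1 : n < 16 * w) (h2 : w ≤ n) :
    aw n w ^ d ≤ (1 / ((n : ℝ) + 1)) ^ d *
      (1 + Real.exp (16 * d) * Real.exp (-(32 * d / ((n : ℝ) + 1))) ^ w) := by
  set N : ℝ := (n : ℝ) + 1 with hN
  have hN0 : 0 < N := by positivity
  have hw1 : 1 ≤ w := by omega
  have hwR : (1 : ℝ) ≤ w := by exact_mod_cast hw1
  have hw0 : (0 : ℝ) < w := by linarith
  have hwn : (w : ℝ) ≤ n := by exact_mod_cast h2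
  have hN16 : N ≤ 16 * w := by
    have : n + 1 ≤ 16 * w := h1
    rw [hN]; exact_mod_cast this
  have h3 : aw n w ≤ (1 / N) * ((N - w) / w) := by
    unfold aw
    rw [← hN, div_mul_div_comm, one_mul]
    refine div_le_div_of_nonneg_left (by linarith) (by positivity) ?_
    nlinarith
  have h4 : aw n w ^ d ≤ (1 / N) ^ d * ((N - w) / w) ^ d := by
    rw [← mul_pow]
    exact pow_le_pow_left₀ (aw_nonneg n w h2) h3 d
  refine h4.trans (mul_le_mul_of_nonneg_left ?_ (by positivity))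
  have h50 : 0 ≤ (N - w) / w := div_nonneg (by linarith) hw0.le
  rcases le_or_gt N (2 * w) with hc | hc
  · have h5 : (N - w) / w ≤ 1 := by
      rw [div_le_one hw0]; linarith
    have h6 : ((N - w) / w) ^ d ≤ 1 := pow_le_one₀ h50 h5
    have h7 : 0 ≤ Real.exp (16 * d) * Real.exp (-(32 * d / N)) ^ w := by positivity
    linarith
  · have h5 : (N - w) / w ≤ Real.exp (16 * (N - 2 * w) / N) := by
      have e1 : (N - w) / w = (N - 2 * w) / w + 1 := by field_simp; ring
      rw [e1]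
      refine (Real.add_one_le_exp _).trans (Real.exp_le_exp.2 ?_)
      rw [div_le_div_iff₀ hw0 hN0]
      have : 0 ≤ N - 2 * w := by linarith
      nlinarith
    have h6 : ((N - w) / w) ^ d ≤ Real.exp (16 * (N - 2 * w) / N) ^ d :=
      pow_le_pow_left₀ h50 h5 d
    have h7 : Real.exp (16 * (N - 2 * w) / N) ^ d =
        Real.exp (16 * d) * Real.exp (-(32 * d / N)) ^ w := by
      rw [← Real.exp_nat_mul, ← Real.exp_nat_mul, ← Real.exp_add]
      congr 1
      field_simp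
      ring
    linarith

lemma cosh_bound (n d : ℕ) :
    Real.exp (16 * d) * (1 + Real.exp (-(32 * d / ((n : ℝ) + 1)))) ^ n ≤
      2 ^ (n + 1) * Real.exp (128 * d ^ 2 / ((n : ℝ) + 1)) := by
  set N : ℝ := (n : ℝ) + 1 with hN
  have hN0 : 0 < N := by positivity
  set y : ℝ := 16 * d / N with hy
  have h1 : Real.exp (16 * d) = Real.exp y ^ (n + 1) := by
    rw [← Real.exp_nat_mul]
    congr 1
    rw [hy]
    push_cast
    rw [← hN]
    field_simp
  have h2 : -(32 * (d : ℝ) / N) = -y + -y := by rw [hy]; ring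
  rw [h1, h2, Real.exp_add]
  have hey : 0 < Real.exp y := Real.exp_pos y
  have hemy : 0 < Real.exp (-y) := Real.exp_pos _
  have h3 : (1 + Real.exp (-y) * Real.exp (-y)) ^ n ≤ (1 + Real.exp (-y) * Real.exp (-y)) ^ (n + 1) :=
    pow_le_pow_right₀ (by nlinarith) (Nat.le_succ n)
  have h4 : Real.exp y * (1 + Real.exp (-y) * Real.exp (-y)) = 2 * Real.cosh y := by
    rw [Real.cosh_eq]
    have : Real.exp y * Real.exp (-y) = 1 := by rw [← Real.exp_add]; simp
    linear_combination (Real.exp (-y)) * this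
  calc Real.exp y ^ (n + 1) * (1 + Real.exp (-y) * Real.exp (-y)) ^ n
      ≤ Real.exp y ^ (n + 1) * (1 + Real.exp (-y) * Real.exp (-y)) ^ (n + 1) :=
        mul_le_mul_of_nonneg_left h3 (by positivity)
    _ = (2 * Real.cosh y) ^ (n + 1) := by rw [← mul_pow, h4]
    _ ≤ (2 * Real.exp (y ^ 2 / 2)) ^ (n + 1) := by
        refine pow_le_pow_left₀ (by have := Real.cosh_pos y; positivity) ?_ _
        exact mul_le_mul_of_nonneg_left (Real.cosh_le_exp_half_sq y) (by norm_num)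
    _ = 2 ^ (n + 1) * Real.exp (128 * d ^ 2 / N) := by
        rw [mul_pow, ← Real.exp_nat_mul]
        congr 2
        rw [hy]
        push_cast
        rw [← hN]
        field_simp
        ring

/-- small weights -/
lemma aw_small (n w d : ℕ) (hw1 : 1 ≤ w) (hw : w ≤ n) (h : 4 * (w * Real.log ((n : ℝ) + 1)) ≤ d) :
    (n.choose w : ℝ) * aw n w ^ d ≤ Real.exp (-(d : ℝ) / 4) := by
  have hN0 : (0 : ℝ) < (n : ℝ) + 1 := by positivity
  have h1 : (n.choose w : ℝ) ≤ Real.exp ((d : ℝ) / 4) := by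
    have h2 : (n.choose w : ℝ) ≤ ((n : ℝ) + 1) ^ w := by
      have h3 : n.choose w ≤ n ^ w := Nat.choose_le_pow n w
      have h4 : n ^ w ≤ (n + 1) ^ w := Nat.pow_le_pow_left (Nat.le_succ n) w
      exact_mod_cast h3.trans h4
    refine h2.trans ?_
    have h5 : ((n : ℝ) + 1) ^ w = Real.exp (w * Real.log ((n : ℝ) + 1)) := by
      rw [Real.exp_nat_mul, Real.exp_log hN0]
    rw [h5]
    exact Real.exp_le_exp.2 (by linarith)
  have h2 : aw n w ^ d ≤ Real.exp (-(d : ℝ) / 2) := by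
    have h3 : aw n w ≤ Real.exp (-(1 / 2)) := by
      refine (aw_le_inv n w).trans ?_
      have h4 := Real.add_one_le_exp (-(1 / 2) : ℝ)
      have hwR : (1 : ℝ) ≤ w := by exact_mod_cast hw1
      have h5 : 1 / ((w : ℝ) + 1) ≤ 1 / 2 :=
        div_le_div_of_nonneg_left (by norm_num) (by norm_num) (by linarith)
      linarith
    refine (pow_le_pow_left₀ (aw_nonneg n w hw) h3 d).trans (le_of_eq ?_)
    rw [← Real.exp_nat_mul]
    congr 1
    ring
  calc (n.choose w : ℝ) * aw n w ^ d ≤ Real.exp ((d : ℝ) / 4) * Real.exp (-(d : ℝ) / 2) :=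
        mul_le_mul h1 h2 (pow_nonneg (aw_nonneg n w hw) d) (Real.exp_pos _).le
    _ = Real.exp (-(d : ℝ) / 4) := by
        rw [← Real.exp_add]
        congr 1
        ring

/-- middle weights -/
lemma aw_middle (n w d : ℕ) (hn1 : 1 ≤ n) (hw : 16 * w ≤ n) (hl : 1 ≤ Real.log ((n : ℝ) + 1))
    (h : (d : ℝ) < 4 * (w * Real.log ((n : ℝ) + 1)))
    (hd1 : (n : ℝ) * Real.log 2 ≤ d * Real.log ((n : ℝ) + 1))
    (hd2 : ((n : ℝ) + 1) / (2 * Real.log ((n : ℝ) + 1)) ≤ d)
    (hd3 : (d : ℝ) ≤ ((n : ℝ) + 1) / Real.log ((n : ℝ) + 1))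
    (hlam : Real.log (8 * Real.log ((n : ℝ) + 1) ^ 2) ≤ Real.log ((n : ℝ) + 1) / 16) :
    (n.choose w : ℝ) * aw n w ^ d ≤ Real.exp (-(n : ℝ) / 5) := by
  have hN0 : (0 : ℝ) < (n : ℝ) + 1 := by positivity
  have hnR : (1 : ℝ) ≤ n := by exact_mod_cast hn1
  set l : ℝ := Real.log ((n : ℝ) + 1) with hldef
  have hl0 : 0 < l := by linarith
  have hd0 : (0 : ℝ) < d := lt_of_lt_of_le (by positivity) hd2
  have hw0 : (0 : ℝ) < w := by
    by_contra hc
    push Not at hc
    nlinarith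
  have hwn : w ≤ n := by omega
  have h1 : (n.choose w : ℝ) ≤ Real.exp ((n : ℝ) * Real.log 2 / 2) := by
    have h2 := choose_pow4 n w hw
    have h3 : (Real.exp ((n : ℝ) * Real.log 2 / 2)) ^ 4 = 4 ^ n := by
      have h4 : (4 : ℝ) ^ n = (2 ^ n) ^ 2 := by
        rw [← pow_mul, mul_comm n 2, pow_mul]; norm_num
      have h5 : (2 : ℝ) ^ n = Real.exp ((n : ℝ) * Real.log 2) := by
        rw [Real.exp_nat_mul, Real.exp_log (by norm_num)]
      rw [h4, h5, ← Real.exp_nat_mul, ← Real.exp_nat_mul]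
      congr 1
      push_cast
      ring
    rw [← h3] at h2
    exact le_of_pow_le_pow_left₀ (by norm_num) (Real.exp_pos _).le h2
  have h2 : aw n w ≤ 8 * l ^ 2 / ((n : ℝ) + 1) := by
    refine (aw_le_inv n w).trans ?_
    rw [div_le_div_iff₀ (by positivity) hN0]
    rw [div_le_iff₀ (by positivity)] at hd2
    have : (n : ℝ) + 1 ≤ 4 * (w * l) * (2 * l) := by
      refine hd2.trans ?_
      exact mul_le_mul_of_nonneg_right h.le (by positivity)
    nlinarith
  have h3 : 8 * l ^ 2 / ((n : ℝ) + 1) = Real.exp (Real.log (8 * l ^ 2) - l) := by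
    rw [Real.exp_sub, Real.exp_log (by positivity), hldef, Real.exp_log hN0]
  have h4 : aw n w ^ d ≤ Real.exp ((n : ℝ) / 8 - n * Real.log 2) := by
    rw [h3] at h2
    refine (pow_le_pow_left₀ (aw_nonneg n w hwn) h2 d).trans ?_
    rw [← Real.exp_nat_mul]
    refine Real.exp_le_exp.2 ?_
    have h5 : (d : ℝ) * Real.log (8 * l ^ 2) ≤ (n : ℝ) / 8 := by
      have h6 : (d : ℝ) * Real.log (8 * l ^ 2) ≤ d * (l / 16) :=
        mul_le_mul_of_nonneg_left hlam hd0.le
      have h7 : (d : ℝ) * l ≤ (n : ℝ) + 1 := by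
        rw [le_div_iff₀ hl0] at hd3
        exact hd3
      nlinarith
    nlinarith
  calc (n.choose w : ℝ) * aw n w ^ d
      ≤ Real.exp ((n : ℝ) * Real.log 2 / 2) * Real.exp ((n : ℝ) / 8 - n * Real.log 2) :=
        mul_le_mul h1 h4 (pow_nonneg (aw_nonneg n w hwn) d) (Real.exp_pos _).le
    _ ≤ Real.exp (-(n : ℝ) / 5) := by
        rw [← Real.exp_add]
        refine Real.exp_le_exp.2 ?_
        have := Real.log_two_gt_d9
        nlinarith

/-- the whole sum -/
theorem sum_aw_le (n d : ℕ) (hn1 : 1 ≤ n) (hl : 1 ≤ Real.log ((n : ℝ) + 1))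
    (hd1 : (n : ℝ) * Real.log 2 + Real.log 6 + 128 * (d : ℝ) ^ 2 / ((n : ℝ) + 1) ≤
      d * Real.log ((n : ℝ) + 1))
    (hd2 : ((n : ℝ) + 1) / (2 * Real.log ((n : ℝ) + 1)) ≤ d)
    (hd3 : (d : ℝ) ≤ ((n : ℝ) + 1) / Real.log ((n : ℝ) + 1))
    (hlam : Real.log (8 * Real.log ((n : ℝ) + 1) ^ 2) ≤ Real.log ((n : ℝ) + 1) / 16)
    (hs : (n : ℝ) * (Real.exp (-(d : ℝ) / 4) + Real.exp (-(n : ℝ) / 5)) ≤ 1 / 2) :
    ∑ w ∈ range (n + 1), (n.choose w : ℝ) * aw n w ^ d ≤ 2 := by
  set N : ℝ := (n : ℝ) + 1 with hN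
  have hN0 : 0 < N := by positivity
  have hlog6 : 0 ≤ Real.log 6 := Real.log_nonneg (by norm_num)
  rw [Finset.sum_range_succ', aw_zero]
  set ε : ℝ := Real.exp (-(d : ℝ) / 4) + Real.exp (-(n : ℝ) / 5) with hε
  have h1 : ∀ w ∈ range n, (n.choose (w + 1) : ℝ) * aw n (w + 1) ^ d ≤
      ε + (1 / N) ^ d * ((n.choose (w + 1) : ℝ) +
        Real.exp (16 * d) * ((n.choose (w + 1) : ℝ) * Real.exp (-(32 * d / N)) ^ (w + 1))) := by
    intro w hw
    have hw' : w + 1 ≤ n := Finset.mem_range.1 hw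
    have hε1 : 0 < Real.exp (-(d : ℝ) / 4) := Real.exp_pos _
    have hε2 : 0 < Real.exp (-(n : ℝ) / 5) := Real.exp_pos _
    have hpos : 0 ≤ (1 / N) ^ d * ((n.choose (w + 1) : ℝ) +
        Real.exp (16 * d) * ((n.choose (w + 1) : ℝ) * Real.exp (-(32 * d / N)) ^ (w + 1))) := by
      positivity
    rcases lt_or_ge n (16 * (w + 1)) with hA | hA
    · have h2 := aw_large n (w + 1) d hA hw'
      have h3 := mul_le_mul_of_nonneg_left h2 (Nat.cast_nonneg (α := ℝ) (n.choose (w + 1)))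
      refine h3.trans (le_trans (le_of_eq ?_) (le_add_of_nonneg_left (by linarith)))
      ring
    · rcases le_or_gt (4 * (((w + 1 : ℕ) : ℝ) * Real.log N)) d with hB | hB
      · have h2 := aw_small n (w + 1) d (by omega) hw' hB
        linarith
      · have h2 := aw_middle n (w + 1) d hn1 hA hl hB (by
          have : 0 ≤ 128 * (d : ℝ) ^ 2 / N := by positivity
          linarith) hd2 hd3 hlam
        linarith
  have h2 : ∑ w ∈ range n, (n.choose (w + 1) : ℝ) ≤ 2 ^ n := by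
    have h3 := Nat.sum_range_choose n
    rw [Finset.sum_range_succ'] at h3
    have h4 : ∑ w ∈ range n, n.choose (w + 1) ≤ 2 ^ n := by omega
    exact_mod_cast h4
  have h3 : ∑ w ∈ range n, (n.choose (w + 1) : ℝ) * Real.exp (-(32 * d / N)) ^ (w + 1) ≤
      (1 + Real.exp (-(32 * d / N))) ^ n := by
    have h4 := add_pow (Real.exp (-(32 * (d : ℝ) / N))) 1 n
    rw [add_comm (Real.exp (-(32 * (d : ℝ) / N))) 1, Finset.sum_range_succ'] at h4
    rw [h4]
    refine le_add_of_le_of_nonneg (le_of_eq ?_) (by positivity)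
    refine Finset.sum_congr rfl fun w _ => ?_
    rw [one_pow, mul_one, mul_comm]
  have h4 := cosh_bound n d
  rw [← hN] at h4
  have h5 : ∑ w ∈ range n, (n.choose (w + 1) : ℝ) * aw n (w + 1) ^ d ≤
      n * ε + (1 / N) ^ d * (2 ^ n + 2 ^ (n + 1) * Real.exp (128 * (d : ℝ) ^ 2 / N)) := by
    refine (Finset.sum_le_sum h1).trans ?_
    rw [Finset.sum_add_distrib, Finset.sum_const, Finset.card_range, nsmul_eq_mul, ← Finset.mul_sum,
      Finset.sum_add_distrib, ← Finset.mul_sum]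
    refine add_le_add_right (mul_le_mul_of_nonneg_left ?_ (by positivity)) _
    refine add_le_add h2 (le_trans (mul_le_mul_of_nonneg_left h3 (Real.exp_pos _).le) h4)
  have h6 : (1 / N) ^ d * (2 ^ n + 2 ^ (n + 1) * Real.exp (128 * (d : ℝ) ^ 2 / N)) ≤ 1 / 2 := by
    have h7 : N ^ d = Real.exp (d * Real.log N) := by
      rw [Real.exp_nat_mul, Real.exp_log hN0]
    have h8 : (2 : ℝ) ^ n = Real.exp ((n : ℝ) * Real.log 2) := by
      rw [Real.exp_nat_mul, Real.exp_log (by norm_num)]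
    have h9 : 2 ^ n * (6 * Real.exp (128 * (d : ℝ) ^ 2 / N)) ≤ N ^ d := by
      have h10 : (6 : ℝ) = Real.exp (Real.log 6) := (Real.exp_log (by norm_num)).symm
      rw [h7, h8, h10, ← Real.exp_add, ← Real.exp_add]
      exact Real.exp_le_exp.2 (by linarith)
    rw [one_div, inv_pow, inv_mul_le_iff₀ (by positivity)]
    have h11 : (1 : ℝ) ≤ Real.exp (128 * (d : ℝ) ^ 2 / N) := Real.one_le_exp (by positivity)
    have h12 : (0 : ℝ) < 2 ^ n := by positivity
    have h13 : (2 : ℝ) ^ (n + 1) = 2 * 2 ^ n := by ring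
    rw [h13]
    nlinarith
  simp only [Nat.choose_zero_right, Nat.cast_one, one_pow, mul_one]
  linarith

end Pool.Agent.KS6_43.BD
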