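import Mathlib
import Pool.Agent.KS6_43.BD.Num
import Pool.Agent.KS6_43.BD.LowF
import Pool.Graph.R_seed8.TH285.BD.Asym

/-!
Boolean dimension: asymptotics of the second order term.
-/

set_option autoImplicit false

open Finset Filter

namespace Pool.Agent.KS6_43.BD

open Pool.Agent.TH285.BD

/-- labels from permutations and boosting -/
theorem exists_labels_perm (n L d : ℕ) (hn2 : n < 2 ^ (L + 1))
    (hsum : ∑ w ∈ range (n + 1), (n.choose w : ℝ) * aw n w ^ d ≤ 2) :
    ∃ lam : (Fin d ⊕ Fin (L + 1)) → Fin n → ℕ, ∀ S : Fin n → ZMod 2,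
      ∃ g : (Fin d ⊕ Fin (L + 1)) → ℕ, ∀ i, S i = ∑ j, bt (g j) (lam j i) := by
  classical
  obtain ⟨π, hπ⟩ := exists_half_perm n d hsum
  obtain ⟨Ds, hDs⟩ := boost_all _ hπ (L + 1) hn2
  refine ⟨Sum.elim (fun j i => (lamP π i j : ℕ)) (fun k i => if Ds k i = 0 then 0 else 1), fun S => ?_⟩
  obtain ⟨T, hT, ε, hS⟩ := hDs S
  rw [Finset.mem_image] at hT
  obtain ⟨g, _, hg⟩ := hT
  refine ⟨Sum.elim (fun j => (g j : ℕ)) (fun k => if ε k then 1 else 2), fun i => ?_⟩
  rw [hS, Fintype.sum_sum_type, Pi.add_apply, ← hg]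
  simp only [Sum.elim_inl, Sum.elim_inr]
  congr 1
  rw [Finset.sum_apply]
  refine Finset.sum_congr rfl fun k _ => ?_
  by_cases hk : ε k = true
  · simp only [hk, if_true]
    rcases zmod2_cases (Ds k i) with h | h
    · rw [h]; simp [bt]
    · rw [h]; simp [bt]
  · simp only [hk]
    by_cases h : Ds k i = 0
    · simp [bt, h]
    · simp [bt, h]

theorem f_upper_nat' (n L d : ℕ) (hn2 : n < 2 ^ (L + 1))
    (hsum : ∑ w ∈ range (n + 1), (n.choose w : ℝ) * aw n w ^ d ≤ 2) :
    f n ≤ d + 4 * (L + 1) := by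
  obtain ⟨lam, hlam⟩ := exists_labels_perm n L d hn2 hsum
  obtain ⟨X, hX, P, hP, hb⟩ := (f_isGreatest n).1
  rw [← hb]
  have h1 := upper P n (L + 1) hP (by omega) lam hlam (d + 4 * (L + 1)) (by simp; ring)
  refine Nat.sInf_le ⟨?_, h1⟩
  have : 1 ≤ 4 * (L + 1) := by omega
  exact this.trans (Nat.le_add_left _ _)

/-- powers of the logarithm are eventually small -/
lemma ev_pow_log (K : ℝ) (k : ℕ) : ∀ᶠ n : ℕ in atTop, K * Real.log ((n : ℝ) + 1) ^ k ≤ (n : ℝ) + 1 := by
  have h1 : ∀ᶠ x : ℝ in atTop, K * Real.log x ^ k ≤ x := by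
    have h2 := (Real.isLittleO_pow_log_id_atTop (n := k)).def (show (0 : ℝ) < 1 / (|K| + 1) by positivity)
    filter_upwards [h2, eventually_ge_atTop (1 : ℝ)] with x hx hx1
    rw [Real.norm_eq_abs, Real.norm_eq_abs, id, abs_of_nonneg (by linarith : (0 : ℝ) ≤ x)] at hx
    have h3 : K * Real.log x ^ k ≤ (|K| + 1) * |Real.log x ^ k| := by
      calc K * Real.log x ^ k ≤ |K * Real.log x ^ k| := le_abs_self _
        _ = |K| * |Real.log x ^ k| := abs_mul _ _
        _ ≤ (|K| + 1) * |Real.log x ^ k| :=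
            mul_le_mul_of_nonneg_right (by linarith) (abs_nonneg _)
    have h4 : (|K| + 1) * |Real.log x ^ k| ≤ (|K| + 1) * (1 / (|K| + 1) * x) :=
      mul_le_mul_of_nonneg_left hx (by positivity)
    have h5 : (|K| + 1) * (1 / (|K| + 1) * x) = x := by
      have : |K| + 1 ≠ 0 := by positivity
      field_simp
    linarith
  have h6 : Tendsto (fun n : ℕ => (n : ℝ) + 1) atTop atTop :=
    tendsto_atTop_add_const_right _ _ tendsto_natCast_atTop_atTop
  exact h6.eventually h1

lemma ev_log_ge (K : ℝ) : ∀ᶠ n : ℕ in atTop, K ≤ Real.log ((n : ℝ) + 1) := by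
  have h6 : Tendsto (fun n : ℕ => (n : ℝ) + 1) atTop atTop :=
    tendsto_atTop_add_const_right _ _ tendsto_natCast_atTop_atTop
  exact (Real.tendsto_log_atTop.comp h6).eventually (eventually_ge_atTop K)

lemma ev_loglog : ∀ᶠ n : ℕ in atTop,
    Real.log (8 * Real.log ((n : ℝ) + 1) ^ 2) ≤ Real.log ((n : ℝ) + 1) / 16 := by
  have h1 : ∀ᶠ x : ℝ in atTop, Real.log (8 * x ^ 2) ≤ x / 16 := by
    have h2 := (Real.isLittleO_log_id_atTop).def (show (0 : ℝ) < 1 / 64 by norm_num)
    filter_upwards [h2, eventually_ge_atTop (1 : ℝ), eventually_ge_atTop (32 * Real.log 8)]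
      with x hx hx1 hx2
    rw [Real.norm_eq_abs, Real.norm_eq_abs, id, abs_of_nonneg (by linarith : (0 : ℝ) ≤ x),
      abs_of_nonneg (Real.log_nonneg hx1)] at hx
    rw [Real.log_mul (by norm_num) (by positivity), Real.log_pow]
    push_cast
    linarith
  have h6 : Tendsto (fun n : ℕ => (n : ℝ) + 1) atTop atTop :=
    tendsto_atTop_add_const_right _ _ tendsto_natCast_atTop_atTop
  exact (Real.tendsto_log_atTop.comp h6).eventually h1

theorem f_upper_second : ∃ n₀ : ℕ, ∀ n : ℕ, n₀ ≤ n →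
    (f n : ℝ) ≤ n / Real.logb 2 n + 800 * (n / (Real.logb 2 n) ^ 3) := by
  have hall := (ev_pow_log 1000 4).and ((ev_log_ge 30).and ev_loglog)
  rw [eventually_atTop] at hall
  obtain ⟨n₁, hn₁⟩ := hall
  refine ⟨max n₁ 10, fun n hn => ?_⟩
  obtain ⟨hE2, hE1, hE3⟩ := hn₁ n (le_trans (le_max_left _ _) hn)
  have hn10 : 10 ≤ n := le_trans (le_max_right _ _) hn
  have hnR : (10 : ℝ) ≤ n := by exact_mod_cast hn10
  set N : ℝ := (n : ℝ) + 1 with hN
  set l : ℝ := Real.log N with hl
  have hN0 : 0 < N := by positivity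
  have hl0 : 0 < l := by linarith
  have hlog2 := Real.log_two_gt_d9
  have hlog2' := Real.log_two_lt_d9
  -- powers of l
  have hl2 : 900 ≤ l ^ 2 := by nlinarith
  have hl3 : l ^ 4 = l ^ 3 * l := by ring
  have hl4 : l ^ 4 = l ^ 2 * l ^ 2 := by ring
  have hl3pos : 0 < l ^ 3 := by positivity
  set d : ℕ := ⌈N * Real.log 2 / l + 129 * N / l ^ 3⌉₊ with hd
  have hdlo : N * Real.log 2 / l + 129 * N / l ^ 3 ≤ d := Nat.le_ceil _
  have hdhi : (d : ℝ) ≤ N * Real.log 2 / l + 129 * N / l ^ 3 + 1 :=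
    (Nat.ceil_lt_add_one (by positivity)).le
  have hNl : N / l ^ 3 ≤ N / l / 900 := by
    rw [div_div]
    refine div_le_div_of_nonneg_left hN0.le (by positivity) ?_
    nlinarith
  have hone : (1 : ℝ) ≤ N / l / 900 := by
    rw [div_div, le_div_iff₀ (by positivity)]
    nlinarith
  have hNl0 : 0 < N / l := by positivity
  have hd3 : (d : ℝ) ≤ N / l := by
    have h1 : N * Real.log 2 / l = Real.log 2 * (N / l) := by ring
    have h2 : 129 * N / l ^ 3 = 129 * (N / l ^ 3) := by ring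
    rw [h1, h2] at hdhi
    nlinarith
  have hd2 : N / (2 * l) ≤ d := by
    have h1 : N * Real.log 2 / l = Real.log 2 * (N / l) := by ring
    have h2 : N / (2 * l) = (1 / 2) * (N / l) := by field_simp
    have h3 : 0 ≤ 129 * N / l ^ 3 := by positivity
    rw [h1] at hdlo
    rw [h2]
    nlinarith
  have hd1 : (n : ℝ) * Real.log 2 + Real.log 6 + 128 * (d : ℝ) ^ 2 / N ≤ d * l := by
    have h1 : N * Real.log 2 + 129 * N / l ^ 2 ≤ d * l := by
      have h2 : (N * Real.log 2 / l + 129 * N / l ^ 3) * l = N * Real.log 2 + 129 * N / l ^ 2 := by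
        field_simp
      rw [← h2]
      exact mul_le_mul_of_nonneg_right hdlo hl0.le
    have h2 : 128 * (d : ℝ) ^ 2 / N ≤ 128 * N / l ^ 2 := by
      have h3 : (d : ℝ) ^ 2 ≤ (N / l) ^ 2 := pow_le_pow_left₀ (Nat.cast_nonneg _) hd3 2
      calc 128 * (d : ℝ) ^ 2 / N ≤ 128 * (N / l) ^ 2 / N :=
            div_le_div_of_nonneg_right (by linarith) hN0.le
        _ = 128 * N / l ^ 2 := by field_simp
    have h3 : Real.log 6 ≤ N / l ^ 2 := by
      have h4 : Real.log 6 ≤ 5 := by
        have := Real.log_le_sub_one_of_pos (show (0 : ℝ) < 6 by norm_num)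
        linarith
      have h5 : (5 : ℝ) ≤ N / l ^ 2 := by
        rw [le_div_iff₀ (by positivity)]
        nlinarith
      linarith
    have h6 : 129 * N / l ^ 2 = 128 * N / l ^ 2 + N / l ^ 2 := by ring
    have h7 : (n : ℝ) * Real.log 2 ≤ N * Real.log 2 := by
      refine mul_le_mul_of_nonneg_right ?_ (by linarith)
      rw [hN]; linarith
    linarith
  have hexp : ∀ x : ℝ, 2 * l ≤ x → (n : ℝ) * Real.exp (-x) ≤ 1 / 4 := by
    intro x hx
    have h1 : Real.exp (-x) ≤ Real.exp (-l) * Real.exp (-l) := by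
      rw [← Real.exp_add]
      exact Real.exp_le_exp.2 (by linarith)
    have h2 : Real.exp (-l) = 1 / N := by
      rw [Real.exp_neg, hl, Real.exp_log hN0, one_div]
    rw [h2] at h1
    have h3 : (n : ℝ) * Real.exp (-x) ≤ n * (1 / N * (1 / N)) :=
      mul_le_mul_of_nonneg_left h1 (Nat.cast_nonneg _)
    refine h3.trans ?_
    rw [one_div_mul_one_div, mul_one_div, div_le_div_iff₀ (by positivity) (by norm_num), hN]
    nlinarith
  have hs : (n : ℝ) * (Real.exp (-(d : ℝ) / 4) + Real.exp (-(n : ℝ) / 5)) ≤ 1 / 2 := by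
    have h1 : 2 * l ≤ (d : ℝ) / 4 := by
      have h2 : 8 * l ≤ N / (2 * l) := by
        rw [le_div_iff₀ (by positivity)]
        nlinarith
      linarith
    have h2 : 2 * l ≤ (n : ℝ) / 5 := by
      have : 1000 * l ≤ N := by nlinarith
      have h3 : N = (n : ℝ) + 1 := hN
      linarith
    have h3 := hexp _ h1
    have h4 := hexp _ h2
    have e1 : -(d : ℝ) / 4 = -((d : ℝ) / 4) := by ring
    have e2 : -(n : ℝ) / 5 = -((n : ℝ) / 5) := by ring
    rw [e1, e2, mul_add]
    linarith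
  have hsum := sum_aw_le n d (by omega) (by linarith) hd1 hd2 hd3 hE3 hs
  set L := Nat.log 2 n with hL
  have hn1 : 2 ^ L ≤ n := Nat.pow_log_le_self 2 (by omega)
  have hn2 : n < 2 ^ (L + 1) := Nat.lt_pow_succ_log_self (by norm_num) n
  have h1 := f_upper_nat' n L d hn2 hsum
  have h2 : (f n : ℝ) ≤ d + 4 * (L + 1) := by exact_mod_cast h1
  -- bound for L
  have hLl : (L : ℝ) * Real.log 2 ≤ l := by
    rw [← Real.log_pow, hl]
    refine Real.log_le_log (by positivity) ?_
    have : (2 : ℝ) ^ L ≤ n := by exact_mod_cast hn1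
    rw [hN]; linarith
  have hL2 : (L : ℝ) ≤ 2 * l := by nlinarith
  -- transfer to log n
  set x : ℝ := Real.log n with hx
  have hn0 : (0 : ℝ) < n := by linarith
  have hxl : x ≤ l := Real.log_le_log hn0 (by rw [hN]; linarith)
  have hx0 : 1 ≤ x := by
    rw [hx, Real.le_log_iff_exp_le hn0]
    have := Real.exp_one_lt_d9
    linarith
  have hxpos : 0 < x := by linarith
  have h3 : N * Real.log 2 / l ≤ n * Real.log 2 / x + 1 := by
    calc N * Real.log 2 / l ≤ N * Real.log 2 / x :=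
          div_le_div_of_nonneg_left (by positivity) hxpos hxl
      _ = n * Real.log 2 / x + Real.log 2 / x := by rw [hN]; ring
      _ ≤ n * Real.log 2 / x + 1 := by
          have : Real.log 2 / x ≤ 1 := by rw [div_le_one hxpos]; linarith
          linarith
  have h4 : N / l ^ 3 ≤ (11 / 10) * (n / x ^ 3) := by
    calc N / l ^ 3 ≤ N / x ^ 3 :=
          div_le_div_of_nonneg_left hN0.le (by positivity) (pow_le_pow_left₀ hxpos.le hxl 3)
      _ ≤ (11 / 10 * n) / x ^ 3 := by
          refine div_le_div_of_nonneg_right ?_ (by positivity)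
          rw [hN]; linarith
      _ = (11 / 10) * (n / x ^ 3) := by ring
  have h5 : 20 * l ≤ N / l ^ 3 := by
    rw [le_div_iff₀ (by positivity)]
    nlinarith
  have h6 : (f n : ℝ) ≤ n * Real.log 2 / x + 150 * (n / x ^ 3) := by
    have h7 : 129 * N / l ^ 3 = 129 * (N / l ^ 3) := by ring
    rw [h7] at hdhi
    have h8 : 0 ≤ n / x ^ 3 := by positivity
    nlinarith
  have hlb : Real.logb 2 n = x / Real.log 2 := rfl
  rw [hlb]
  have h7 : (n : ℝ) / (x / Real.log 2) = n * Real.log 2 / x := by field_simp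
  have h8 : (n : ℝ) / (x / Real.log 2) ^ 3 = Real.log 2 ^ 3 * (n / x ^ 3) := by
    have : Real.log 2 ≠ 0 := by positivity
    field_simp
  rw [h7, h8]
  have h9 : (1 / 4 : ℝ) ≤ Real.log 2 ^ 3 := by
    have : (0.69 : ℝ) ^ 3 ≤ Real.log 2 ^ 3 := pow_le_pow_left₀ (by norm_num) (by linarith) 3
    norm_num at this
    linarith
  have h10 : 0 ≤ n / x ^ 3 := by positivity
  nlinarith

theorem f_lower_second : ∃ n₀ : ℕ, ∀ n : ℕ, n₀ ≤ n →
    n / Real.logb 2 n + (1 / 1000) * (n / (Real.logb 2 n) ^ 3) ≤ (f n : ℝ) := by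
  have hall := (ev_pow_log 100000 4).and (ev_log_ge 30)
  rw [eventually_atTop] at hall
  obtain ⟨n₁, hn₁⟩ := hall
  refine ⟨max n₁ 100, fun n hn => ?_⟩
  obtain ⟨hE2, hE1⟩ := hn₁ n (le_trans (le_max_left _ _) hn)
  have hn10 : 100 ≤ n := le_trans (le_max_right _ _) hn
  have hnR : (100 : ℝ) ≤ n := by exact_mod_cast hn10
  set N : ℝ := (n : ℝ) + 1 with hN
  set l : ℝ := Real.log N with hl
  have hN0 : 0 < N := by positivity
  have hl0 : 0 < l := by linarith
  have hlog2 := Real.log_two_gt_d9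
  have hlog2' := Real.log_two_lt_d9
  have hn0 : (0 : ℝ) < n := by linarith
  set x : ℝ := Real.log n with hx
  have hxl : x ≤ l := Real.log_le_log hn0 (by rw [hN]; linarith)
  have hlx : l ≤ x + 1 / n := by
    have h1 : N = n * (1 + 1 / n) := by rw [hN]; field_simp
    rw [hl, h1, Real.log_mul hn0.ne' (by positivity), hx]
    have := Real.log_le_sub_one_of_pos (show (0 : ℝ) < 1 + 1 / n by positivity)
    linarith
  have hinv : 1 / (n : ℝ) ≤ 1 / 100 := div_le_div_of_nonneg_left (by norm_num) (by norm_num) hnR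
  have hx1 : 29 ≤ x := by linarith
  have hxpos : 0 < x := by linarith
  have hx4 : 50000 * x ^ 4 ≤ n := by
    have h1 : x ^ 4 ≤ l ^ 4 := pow_le_pow_left₀ hxpos.le hxl 4
    have h2 : N = (n : ℝ) + 1 := hN
    have h3 : 0 ≤ l ^ 4 := by positivity
    nlinarith
  have hlb : Real.logb 2 n = x / Real.log 2 := rfl
  have h7 : (n : ℝ) / (x / Real.log 2) = n * Real.log 2 / x := by field_simp
  have h8 : (n : ℝ) / (x / Real.log 2) ^ 3 = Real.log 2 ^ 3 * (n / x ^ 3) := by
    have : Real.log 2 ≠ 0 := by positivity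
    field_simp
  rw [hlb, h7, h8]
  have h9 : Real.log 2 ^ 3 ≤ 1 := pow_le_one₀ (by linarith) (by linarith)
  have hq0 : 0 < n / x ^ 3 := by positivity
  have h10 : 1 / 1000 * (Real.log 2 ^ 3 * (n / x ^ 3)) ≤ 1 / 1000 * (n / x ^ 3) := by
    nlinarith
  suffices hmain : n * Real.log 2 / x + 1 / 1000 * (n / x ^ 3) ≤ (f n : ℝ) by linarith
  rcases Nat.lt_or_ge (n + 1) (f n) with hbig | hsmall
  · -- trivial case
    have h1 : (n : ℝ) + 1 ≤ f n := by exact_mod_cast hbig.le
    have h2 : n * Real.log 2 / x ≤ n / 2 := by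
      rw [div_le_div_iff₀ hxpos (by norm_num)]
      nlinarith
    have h3 : n / x ^ 3 ≤ n := div_le_self hn0.le (one_le_pow₀ (by linarith))
    linarith
  · have h1 := f_lower_exp n (by omega) hsmall
    set D : ℝ := (f n : ℝ) with hD
    have hD0 : 0 ≤ D := Nat.cast_nonneg _
    have hDn : D ≤ n + 1 := by rw [hD]; exact_mod_cast hsmall
    have hN'0 : (0 : ℝ) < (n : ℝ) + 3 / 2 := by positivity
    -- take logs
    have h2 : (n : ℝ) * Real.log 2 ≤ Real.log 3 + D * Real.log ((n : ℝ) + 3 / 2) -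
        D ^ 2 / (32 * (n + 3 / 2)) := by
      have h3 := Real.log_le_log (by positivity) h1
      rw [Real.log_pow, Real.log_mul (by positivity) (Real.exp_pos _).ne',
        Real.log_mul (by norm_num) (by positivity), Real.log_pow, Real.log_exp] at h3
      have e1 : -D ^ 2 / (32 * ((n : ℝ) + 3 / 2)) = -(D ^ 2 / (32 * ((n : ℝ) + 3 / 2))) := by ring
      rw [e1] at h3
      linarith
    have h3 : Real.log ((n : ℝ) + 3 / 2) ≤ x + 2 / n := by
      have h4 : (n : ℝ) + 3 / 2 = n * (1 + 3 / 2 / n) := by field_simp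
      rw [h4, Real.log_mul hn0.ne' (by positivity), hx]
      have h5 := Real.log_le_sub_one_of_pos (show (0 : ℝ) < 1 + 3 / 2 / n by positivity)
      have h6 : (3 / 2 / n : ℝ) ≤ 2 / n := div_le_div_of_nonneg_right (by norm_num) hn0.le
      linarith
    have h4 : D * Real.log ((n : ℝ) + 3 / 2) ≤ D * x + 3 := by
      have h5 : D * (2 / n) ≤ 3 := by
        rw [mul_div_assoc', div_le_iff₀ hn0]
        linarith
      nlinarith
    have h5 : Real.log 3 ≤ 2 := by
      have := Real.log_le_sub_one_of_pos (show (0 : ℝ) < 3 by norm_num)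
      linarith
    -- lower bound for D
    have h6 : (n : ℝ) / (3 * x) ≤ D := by
      have h11 := f_lower_real n
      have h12 : Real.logb 2 ((n : ℝ) + 1) = l / Real.log 2 := rfl
      rw [h12] at h11
      have h13 : (n : ℝ) / (l / Real.log 2) = n * Real.log 2 / l := by field_simp
      rw [h13] at h11
      refine le_trans ?_ h11
      rw [div_le_div_iff₀ (by positivity) hl0]
      have h14 : l ≤ Real.log 2 * (3 * x) := by nlinarith
      calc (n : ℝ) * l ≤ n * (Real.log 2 * (3 * x)) := mul_le_mul_of_nonneg_left h14 hn0.le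
        _ = n * Real.log 2 * (3 * x) := by ring
    have h14 : n / (1000 * x ^ 2) + 5 ≤ D ^ 2 / (32 * (n + 3 / 2)) := by
      have h15 : (n / (3 * x)) ^ 2 ≤ D ^ 2 := pow_le_pow_left₀ (by positivity) h6 2
      have h16 : (n / (3 * x)) ^ 2 / (32 * (n + 3 / 2)) ≤ D ^ 2 / (32 * (n + 3 / 2)) :=
        div_le_div_of_nonneg_right h15 (by positivity)
      refine le_trans ?_ h16
      have h17 : n / (600 * x ^ 2) ≤ (n / (3 * x)) ^ 2 / (32 * (n + 3 / 2)) := by
        rw [div_pow, div_div, div_le_div_iff₀ (by positivity) (by positivity)]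
        have h18 : (3 * x) ^ 2 * (32 * (n + 3 / 2)) = x ^ 2 * (288 * (n + 3 / 2)) := by ring
        have h19 : (n : ℝ) * ((3 * x) ^ 2 * (32 * (n + 3 / 2))) = x ^ 2 * (n * (288 * (n + 3 / 2))) := by
          ring
        rw [h19]
        have h20 : (n : ℝ) ^ 2 * (600 * x ^ 2) = x ^ 2 * (600 * n ^ 2) := by ring
        rw [h20]
        refine mul_le_mul_of_nonneg_left ?_ (by positivity)
        nlinarith
      refine le_trans ?_ h17
      have h21 : n / (600 * x ^ 2) = n / (1000 * x ^ 2) + n / (1500 * x ^ 2) := by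
        field_simp
        norm_num
      rw [h21]
      have h22 : (5 : ℝ) ≤ n / (1500 * x ^ 2) := by
        rw [le_div_iff₀ (by positivity)]
        have : x ^ 2 ≤ x ^ 4 := pow_le_pow_right₀ (by linarith) (by norm_num)
        nlinarith
      linarith
    have h23 : n * Real.log 2 + n / (1000 * x ^ 2) ≤ D * x := by linarith
    have h24 : n * Real.log 2 / x + 1 / 1000 * (n / x ^ 3) =
        (n * Real.log 2 + n / (1000 * x ^ 2)) / x := by
      field_simp
    rw [h24, div_le_iff₀ hxpos]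
    exact h23

end Pool.Agent.KS6_43.BD
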